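import Pool.Agent.Lib.MP_d042fc_an.Defs

/-!
# Algebraic part: Favard functional and the Pearson equation
-/

namespace Pool.Agent.Lib.MP_d042fc_an

open Polynomial

lemma recPoly_zero (b : ℕ → ℝ) : recPoly b 0 = 1 := by simp [recPoly]
lemma recPoly_one (b : ℕ → ℝ) : recPoly b 1 = X := by simp [recPoly]
lemma recPoly_add_two (b : ℕ → ℝ) (n : ℕ) :
    recPoly b (n + 2) = X * recPoly b (n + 1) - C (b (n + 1)) * recPoly b n := by
  simp [recPoly]

lemma recPoly_monic_natDegree (b : ℕ → ℝ) (n : ℕ) :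
    (recPoly b n).Monic ∧ (recPoly b n).natDegree = n := by
  induction n using Nat.twoStepInduction with
  | zero => simp [recPoly_zero]
  | one => simp [recPoly_one]
  | more n h0 h1 =>
    have hm : (X * recPoly b (n + 1)).Monic := monic_X.mul h1.1
    have hd : (X * recPoly b (n + 1)).natDegree = n + 2 := by
      rw [monic_X.natDegree_mul h1.1, h1.2, natDegree_X]; ring
    have hlt : (C (b (n + 1)) * recPoly b n).natDegree < (X * recPoly b (n + 1)).natDegree := by
      rw [hd]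
      exact lt_of_le_of_lt (natDegree_C_mul_le _ _) (by rw [h0.2]; omega)
    rw [recPoly_add_two]
    refine ⟨hm.sub_of_left (degree_lt_degree hlt), ?_⟩
    rw [natDegree_sub_eq_left_of_natDegree_lt hlt, hd]

lemma recPoly_monic (b : ℕ → ℝ) (n : ℕ) : (recPoly b n).Monic := (recPoly_monic_natDegree b n).1
lemma recPoly_natDegree (b : ℕ → ℝ) (n : ℕ) : (recPoly b n).natDegree = n :=
  (recPoly_monic_natDegree b n).2
lemma recPoly_degree (b : ℕ → ℝ) (n : ℕ) : (recPoly b n).degree = n := by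
  rw [degree_eq_natDegree (recPoly_monic b n).ne_zero, recPoly_natDegree]

lemma X_mul_recPoly {b : ℕ → ℝ} (hb : b 0 = 0) (n : ℕ) :
    X * recPoly b n = recPoly b (n + 1) + C (b n) * recPoly b (n - 1) := by
  cases n with
  | zero => simp [recPoly_zero, recPoly_one, hb]
  | succ n => simp [recPoly_add_two]

/-- the norm squares -/
noncomputable def hh (b : ℕ → ℝ) (n : ℕ) : ℝ := ∏ i ∈ Finset.range n, b (i + 1)

lemma hh_zero (b : ℕ → ℝ) : hh b 0 = 1 := by simp [hh]
lemma hh_succ (b : ℕ → ℝ) (n : ℕ) : hh b (n + 1) = hh b n * b (n + 1) := by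
  simp [hh, Finset.prod_range_succ]
lemma hh_pos {b : ℕ → ℝ} (hb : ∀ n, 1 ≤ n → 0 < b n) (n : ℕ) : 0 < hh b n :=
  Finset.prod_pos fun i _ => hb _ (by omega)

/-- `L` is the normalised functional for which the polynomials of `b` are orthogonal -/
structure Orth (L : ℝ[X] →ₗ[ℝ] ℝ) (b : ℕ → ℝ) : Prop where
  b0 : b 0 = 0
  one : L 1 = 1
  van : ∀ n, 1 ≤ n → L (recPoly b n) = 0

lemma exists_orth {b : ℕ → ℝ} (hb : b 0 = 0) : ∃ L : ℝ[X] →ₗ[ℝ] ℝ, Orth L b := by
  let S : Polynomial.Sequence ℝ := ⟨recPoly b, recPoly_degree b⟩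
  have hS : ∀ i, IsUnit (S i).leadingCoeff := fun i => by
    have : (S i).leadingCoeff = 1 := recPoly_monic b i
    rw [this]; exact isUnit_one
  refine ⟨(S.basis hS).coord 0, hb, ?_, ?_⟩
  · have : (1 : ℝ[X]) = S.basis hS 0 := by
      rw [Sequence.basis_eq_self]; exact (recPoly_zero b).symm
    rw [this]; simp only [Module.Basis.coord_apply, Module.Basis.repr_self]; simp
  · intro n hn
    have : recPoly b n = S.basis hS n := by rw [Sequence.basis_eq_self]
    rw [this]; simp only [Module.Basis.coord_apply, Module.Basis.repr_self]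
    rw [Finsupp.single_apply, if_neg (by omega)]

lemma L_C_mul (L : ℝ[X] →ₗ[ℝ] ℝ) (c : ℝ) (p : ℝ[X]) : L (C c * p) = c * L p := by
  rw [← smul_eq_C_mul, map_smul, smul_eq_mul]

variable {L : ℝ[X] →ₗ[ℝ] ℝ} {b : ℕ → ℝ}

lemma L_X_step (hb : b 0 = 0) (q : ℝ[X]) (n : ℕ) :
    L (X * q * recPoly b n) = L (q * recPoly b (n + 1)) + b n * L (q * recPoly b (n - 1)) := by
  have : X * q * recPoly b n = q * recPoly b (n + 1) + C (b n) * (q * recPoly b (n - 1)) := by
    rw [mul_comm X q, mul_assoc, X_mul_recPoly hb]; ring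
  rw [this, map_add, L_C_mul]

lemma Orth.X_pow_lt (h : Orth L b) : ∀ k n, k < n → L (X ^ k * recPoly b n) = 0 := by
  intro k
  induction k with
  | zero => intro n hn; simpa using h.van n hn
  | succ k ih =>
    intro n hn
    rw [pow_succ', L_X_step h.b0, ih (n + 1) (by omega), ih (n - 1) (by omega)]; simp

lemma Orth.X_pow_self (h : Orth L b) : ∀ n, L (X ^ n * recPoly b n) = hh b n := by
  intro n
  induction n with
  | zero => simp [recPoly_zero, h.one, hh_zero]
  | succ n ih =>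
    rw [pow_succ', L_X_step h.b0, h.X_pow_lt n (n + 1 + 1) (by omega), hh_succ]
    simp [ih, mul_comm]

lemma Orth.mul_le (h : Orth L b) (q : ℝ[X]) (n : ℕ) (hq : q.natDegree ≤ n) :
    L (q * recPoly b n) = q.coeff n * hh b n := by
  conv_lhs => rw [q.as_sum_range_C_mul_X_pow' (n := n + 1) (by omega)]
  rw [Finset.sum_mul, map_sum, Finset.sum_range_succ, Finset.sum_eq_zero, zero_add, mul_assoc,
    L_C_mul, h.X_pow_self]
  intro i hi
  rw [mul_assoc, L_C_mul, h.X_pow_lt i n (Finset.mem_range.mp hi), mul_zero]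

lemma Orth.mul_lt (h : Orth L b) (q : ℝ[X]) (n : ℕ) (hq : q.natDegree < n) :
    L (q * recPoly b n) = 0 := by
  rw [h.mul_le q n hq.le, coeff_eq_zero_of_natDegree_lt hq, zero_mul]

/-- matrix entries of powers of the Jacobi operator -/
noncomputable def AA (L : ℝ[X] →ₗ[ℝ] ℝ) (b : ℕ → ℝ) (k i j : ℕ) : ℝ :=
  L (X ^ k * recPoly b j * recPoly b i)

lemma Orth.AA_zero (h : Orth L b) (i j : ℕ) : AA L b 0 i j = if i = j then hh b j else 0 := by
  unfold AA
  rw [pow_zero, one_mul]
  rcases lt_trichotomy i j with hij | rfl | hij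
  · rw [mul_comm, h.mul_lt _ _ (by rwa [recPoly_natDegree]), if_neg hij.ne]
  · rw [h.mul_le _ _ (recPoly_natDegree b i).le, if_pos rfl]
    have := (recPoly_monic b i).coeff_natDegree
    rw [recPoly_natDegree] at this
    rw [this, one_mul]
  · rw [h.mul_lt _ _ (by rwa [recPoly_natDegree]), if_neg hij.ne']

lemma AA_succ (hb : b 0 = 0) (k i j : ℕ) :
    AA L b (k + 1) i j = AA L b k (i + 1) j + b i * AA L b k (i - 1) j := by
  unfold AA
  rw [pow_succ', mul_assoc X, L_X_step hb]

lemma Orth.AA_odd (h : Orth L b) : ∀ k i j, Odd (k + i + j) → AA L b k i j = 0 := by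
  intro k
  induction k with
  | zero =>
    intro i j hij
    rw [h.AA_zero, if_neg]
    rintro rfl
    rw [zero_add, ← two_mul] at hij
    exact (Nat.not_odd_iff_even.mpr (even_two_mul i)) hij
  | succ k ih =>
    intro i j hij
    rw [AA_succ h.b0, ih (i + 1) j (by convert hij using 1; ring)]
    cases i with
    | zero => simp [h.b0]
    | succ i =>
      rw [ih (i + 1 - 1) j]
      · simp
      · have : k + 1 + (i + 1) + j = (k + (i + 1 - 1) + j) + 2 := by omega
        rw [this] at hij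
        exact (Nat.odd_add.mp hij).mpr even_two

lemma Orth.AA_one (h : Orth L b) (n : ℕ) : AA L b 1 n (n + 1) = hh b (n + 1) := by
  simp only [AA_succ h.b0, h.AA_zero]
  rw [if_neg (show ¬ (n - 1 = n + 1) by omega)]; simp

lemma Orth.AA_three (h : Orth L b) (n : ℕ) :
    AA L b 3 n (n + 1) = hh b (n + 1) * (b n + b (n + 1) + b (n + 2)) := by
  obtain rfl | rfl | rfl | ⟨m, rfl⟩ : n = 0 ∨ n = 1 ∨ n = 2 ∨ ∃ m, n = m + 3 := by
    rcases n with _ | _ | _ | n <;> simp
  all_goals
    simp [AA_succ h.b0, h.AA_zero, h.b0, add_assoc]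
    try ring

lemma Orth.AA_five (h : Orth L b) (n : ℕ) :
    AA L b 5 n (n + 1) = hh b (n + 1) *
      ((if 2 ≤ n + 1 then b (n + 1 - 2) else 0) * b n + b n ^ 2 + 2 * b n * b (n + 1)
      + b n * b (n + 2) + b (n + 1) ^ 2 + 2 * b (n + 1) * b (n + 2) + b (n + 2) ^ 2
      + b (n + 2) * b (n + 3)) := by
  obtain rfl | rfl | rfl | rfl | rfl | ⟨m, rfl⟩ :
      n = 0 ∨ n = 1 ∨ n = 2 ∨ n = 3 ∨ n = 4 ∨ ∃ m, n = m + 5 := by
    rcases n with _ | _ | _ | _ | _ | n <;> simp
  all_goals
    simp [AA_succ h.b0, h.AA_zero, h.b0, add_assoc]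
    try ring

/-- derivative of the potential `V = x^6 - τ x^4 - t x^2` -/
noncomputable def dV (τ t : ℝ) : ℝ[X] := C 6 * X ^ 5 - C (4 * τ) * X ^ 3 - C (2 * t) * X

/-- the Pearson functional -/
noncomputable def pear (τ t : ℝ) (L : ℝ[X] →ₗ[ℝ] ℝ) : ℝ[X] →ₗ[ℝ] ℝ :=
  L ∘ₗ (derivative - LinearMap.mulLeft ℝ (dV τ t))

lemma pear_apply (τ t : ℝ) (p : ℝ[X]) :
    pear τ t L p = L (derivative p) - L (dV τ t * p) := by
  simp [pear]

lemma L_dV_mul (τ t : ℝ) (i j : ℕ) :
    L (dV τ t * (recPoly b j * recPoly b i)) =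
      6 * AA L b 5 i j - 4 * τ * AA L b 3 i j - 2 * t * AA L b 1 i j := by
  unfold AA dV
  rw [← L_C_mul, ← L_C_mul, ← L_C_mul, ← map_sub, ← map_sub]
  congr 1; ring

lemma Orth.pear_sq (h : Orth L b) (τ t : ℝ) (n : ℕ) :
    pear τ t L (recPoly b n * recPoly b n) = 0 := by
  rw [pear_apply, L_dV_mul, h.AA_odd 5 n n (by use n + 2; ring), h.AA_odd 3 n n (by use n + 1; ring),
    h.AA_odd 1 n n (by use n; ring), derivative_mul, map_add]
  rcases Nat.eq_zero_or_pos n with rfl | hn
  · simp [recPoly_zero]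
  · have hd : (derivative (recPoly b n)).natDegree < n := by
      have := natDegree_derivative_lt (p := recPoly b n) (by rw [recPoly_natDegree]; omega)
      rwa [recPoly_natDegree] at this
    rw [h.mul_lt _ _ hd, mul_comm, h.mul_lt _ _ hd]; simp

lemma Orth.pear_adj (h : Orth L b) (τ t : ℝ) (n : ℕ) :
    pear τ t L (recPoly b (n + 1) * recPoly b n) = hh b n * (((n + 1 : ℕ) : ℝ) -
      (6 * b (n + 1) * ((if 2 ≤ n + 1 then b (n + 1 - 2) else 0) * b n + b n ^ 2
        + 2 * b n * b (n + 1)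
      + b n * b (n + 2) + b (n + 1) ^ 2 + 2 * b (n + 1) * b (n + 2) + b (n + 2) ^ 2
      + b (n + 2) * b (n + 3)) - 4 * τ * b (n + 1) * (b n + b (n + 1) + b (n + 2))
        - 2 * t * b (n + 1))) := by
  rw [pear_apply, L_dV_mul, h.AA_five, h.AA_three, h.AA_one, derivative_mul, map_add]
  have hd1 : (derivative (recPoly b (n + 1))).natDegree ≤ n := by
    have := natDegree_derivative_lt (p := recPoly b (n + 1)) (by rw [recPoly_natDegree]; omega)
    rw [recPoly_natDegree] at this; omega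
  have hd2 : (derivative (recPoly b n)).natDegree < n + 1 := by
    have := natDegree_derivative_le (recPoly b n)
    rw [recPoly_natDegree] at this; omega
  have hc := (recPoly_monic b (n + 1)).coeff_natDegree
  rw [recPoly_natDegree] at hc
  rw [h.mul_le _ _ hd1, mul_comm (recPoly b (n + 1)), h.mul_lt _ _ hd2, coeff_derivative, hc,
    hh_succ]
  push_cast; ring

lemma Orth.stringEq_iff (h : Orth L b) (hb : ∀ n, 1 ≤ n → 0 < b n) (τ t : ℝ) (n : ℕ) :
    StringEq τ t b (n + 1) ↔ pear τ t L (recPoly b (n + 1) * recPoly b n) = 0 := by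
  rw [h.pear_adj, mul_eq_zero, or_iff_right (hh_pos hb n).ne', sub_eq_zero, eq_comm]
  unfold StringEq
  simp only [Nat.add_sub_cancel, add_assoc]

lemma Orth.pear_eq_zero (h : Orth L b) {τ t : ℝ} (hs : IsPositiveSolution τ t b) :
    pear τ t L = 0 := by
  let Q : ℕ → ℝ[X] := fun k => recPoly b ((k + 1) / 2) * recPoly b (k / 2)
  have hQm : ∀ k, (Q k).Monic := fun k => (recPoly_monic _ _).mul (recPoly_monic _ _)
  have hQd : ∀ k, (Q k).degree = k := fun k => by
    rw [degree_eq_natDegree (hQm k).ne_zero, (recPoly_monic _ _).natDegree_mul (recPoly_monic _ _),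
      recPoly_natDegree, recPoly_natDegree]
    congr 1; omega
  let S : Polynomial.Sequence ℝ := ⟨Q, hQd⟩
  have hS : ∀ i, IsUnit (S i).leadingCoeff := fun i => by
    have : (S i).leadingCoeff = 1 := hQm i
    rw [this]; exact isUnit_one
  apply (S.basis hS).ext
  intro k
  rw [Sequence.basis_eq_self]
  change pear τ t L (Q k) = 0
  obtain ⟨n, rfl | rfl⟩ := Nat.even_or_odd' k
  · have h1 : (2 * n + 1) / 2 = n := by omega
    have h2 : (2 * n) / 2 = n := by omega
    simp only [Q, h1, h2]; exact h.pear_sq τ t n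
  · have h1 : (2 * n + 1 + 1) / 2 = n + 1 := by omega
    have h2 : (2 * n + 1) / 2 = n := by omega
    simp only [Q, h1, h2]
    exact (h.stringEq_iff hs.2.1 τ t n).mp (hs.2.2 _ (by omega))

lemma Orth.X_two (h : Orth L b) : L (X ^ 2) = b 1 := by
  have : AA L b 2 0 0 = b 1 := by simp [AA_succ h.b0, h.AA_zero, h.b0, hh_zero]
  simpa [AA, recPoly_zero] using this

lemma Orth.X_four (h : Orth L b) : L (X ^ 4) = b 1 * (b 1 + b 2) := by
  have : AA L b 4 0 0 = b 1 * (b 1 + b 2) := by
    simp [AA_succ h.b0, h.AA_zero, h.b0, hh_zero]; ring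
  simpa [AA, recPoly_zero] using this

/-- two positive solutions with the same first two values agree -/
lemma IsPositiveSolution.ext_of_two {τ t : ℝ} {b c : ℕ → ℝ} (hb : IsPositiveSolution τ t b)
    (hc : IsPositiveSolution τ t c) (h1 : b 1 = c 1) (h2 : b 2 = c 2) : b = c := by
  funext n
  induction n using Nat.strong_induction_on with
  | _ n ih =>
    rcases n with _ | _ | _ | n
    · rw [hb.1, hc.1]
    · exact h1
    · exact h2
    · have e1 := hb.2.2 (n + 1) (by omega)
      have e2 := hc.2.2 (n + 1) (by omega)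
      unfold StringEq at e1 e2
      rw [ih (n + 1) (by omega), ih (n + 1 - 2) (by omega), ih (n + 1 - 1) (by omega),
        ih (n + 1 + 1) (by omega)] at e1
      have hp1 := hc.2.1 (n + 1) (by omega)
      have hp2 := hc.2.1 (n + 1 + 1) (by omega)
      have : 6 * c (n + 1) * c (n + 1 + 1) * (b (n + 1 + 2) - c (n + 1 + 2)) = 0 := by
        linear_combination e1 - e2
      have h3 : 6 * c (n + 1) * c (n + 1 + 1) ≠ 0 := by positivity
      have := (mul_eq_zero.mp this).resolve_left h3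
      exact sub_eq_zero.mp this

end Pool.Agent.Lib.MP_d042fc_an
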