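import Mathlib

/-!
# Definitions for the sextic Freud string equation
-/

namespace Pool.Agent.Lib.MP_d042fc_an

open Polynomial MeasureTheory

/-- The symmetric sextic Freud weight `exp (-x^6 + τ x^4 + t x^2)`. -/
noncomputable def weight (τ t x : ℝ) : ℝ := Real.exp (-x ^ 6 + τ * x ^ 4 + t * x ^ 2)

/-- The moments `μ_k = ∫ x^k ω(x) dx` of the weight (Lebesgue measure on the real line). -/
noncomputable def moment (τ t : ℝ) (k : ℕ) : ℝ := ∫ x : ℝ, x ^ k * weight τ t x

/-- Equation (E) at the index `n ≥ 1`, with the convention `b_{-1} = 0`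
(the value `b_{n-2}` is replaced by `0` when `n < 2`). -/
def StringEq (τ t : ℝ) (b : ℕ → ℝ) (n : ℕ) : Prop :=
  6 * b n * ((if 2 ≤ n then b (n - 2) else 0) * b (n - 1) + b (n - 1) ^ 2 + 2 * b (n - 1) * b n
      + b (n - 1) * b (n + 1) + b n ^ 2 + 2 * b n * b (n + 1) + b (n + 1) ^ 2
      + b (n + 1) * b (n + 2))
    - 4 * τ * b n * (b (n - 1) + b n + b (n + 1)) - 2 * t * b n = (n : ℝ)

/-- A positive solution of (E): `b_0 = 0`, `b_n > 0` and (E) holds for all `n ≥ 1`. -/
def IsPositiveSolution (τ t : ℝ) (b : ℕ → ℝ) : Prop :=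
  b 0 = 0 ∧ (∀ n, 1 ≤ n → 0 < b n) ∧ ∀ n, 1 ≤ n → StringEq τ t b n

/-- The monic polynomials given by `P_0 = 1`, `P_1 = x`, `P_{n+1} = x P_n - b_n P_{n-1}`. -/
noncomputable def recPoly (b : ℕ → ℝ) : ℕ → ℝ[X]
  | 0 => 1
  | 1 => X
  | n + 2 => X * recPoly b (n + 1) - C (b (n + 1)) * recPoly b n

/-- `β` is the sequence of recurrence coefficients of the monic orthogonal polynomials of the
weight: `β_0 = 0` and the monic polynomials built from `β` by the three-term recurrence are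
pairwise orthogonal for the weight. -/
def IsRecurrenceCoeff (τ t : ℝ) (β : ℕ → ℝ) : Prop :=
  β 0 = 0 ∧ ∀ m n : ℕ, m ≠ n →
    ∫ x : ℝ, (recPoly β m).eval x * (recPoly β n).eval x * weight τ t x = 0

end Pool.Agent.Lib.MP_d042fc_an
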