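import Pool.Agent.Lib.MP_d042fc_an.Quadrature

/-!
# From the Pearson equation for polynomials to exponentials
-/

namespace Pool.Agent.Lib.MP_d042fc_an

open Polynomial Filter Topology MeasureTheory

lemma taylor_bound (K : ℕ) : ∀ θ : ℝ,
    ‖Complex.exp (θ * Complex.I) - ∑ k ∈ Finset.range K, (θ * Complex.I) ^ k / (k.factorial : ℂ)‖
      ≤ |θ| ^ K / K.factorial := by
  induction K with
  | zero => intro θ; simp
  | succ K ih =>
    intro θ
    let f : ℝ → ℂ := fun s => Complex.exp (s * (θ * Complex.I)) -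
      ∑ k ∈ Finset.range K, (s * (θ * Complex.I)) ^ (k + 1) / ((k + 1).factorial : ℂ)
    let f' : ℝ → ℂ := fun s => (θ * Complex.I) * (Complex.exp ((s * θ : ℝ) * Complex.I) -
      ∑ k ∈ Finset.range K, (((s * θ : ℝ) : ℂ) * Complex.I) ^ k / (k.factorial : ℂ))
    have hlin : ∀ s : ℝ, HasDerivAt (fun s : ℝ => (s : ℂ) * (θ * Complex.I)) (θ * Complex.I) s := by
      intro s
      simpa using (Complex.ofRealCLM.hasDerivAt (x := s)).mul_const (θ * Complex.I)
    have hd : ∀ s : ℝ, HasDerivAt f (f' s) s := by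
      intro s
      have h1 := (hlin s).cexp
      have h2 : HasDerivAt (fun s : ℝ => ∑ k ∈ Finset.range K,
          ((s : ℂ) * (θ * Complex.I)) ^ (k + 1) / ((k + 1).factorial : ℂ))
          (∑ k ∈ Finset.range K, (θ * Complex.I) *
            (((s : ℂ) * (θ * Complex.I)) ^ k / (k.factorial : ℂ))) s := by
        refine HasDerivAt.fun_sum fun k _ => ?_
        have h3 := ((hlin s).pow (k + 1)).div_const ((k + 1).factorial : ℂ)
        refine h3.congr_deriv ?_
        have hk : ((k.factorial : ℕ) : ℂ) ≠ 0 := by exact_mod_cast k.factorial_ne_zero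
        have hk1 : ((k : ℂ) + 1) ≠ 0 := by exact_mod_cast k.succ_ne_zero
        rw [Nat.factorial_succ]
        push_cast
        field_simp
      refine (h1.sub h2).congr_deriv ?_
      simp only [f', mul_sub, Finset.mul_sum]
      push_cast
      simp only [mul_assoc]
      ring
    have hc : Continuous f' := by
      simp only [f']
      fun_prop
    have hint := intervalIntegral.integral_eq_sub_of_hasDerivAt (a := 0) (b := 1)
      (fun s _ => hd s) (hc.intervalIntegrable 0 1)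
    have hf : f 1 - f 0 = Complex.exp (θ * Complex.I) -
        ∑ k ∈ Finset.range (K + 1), (θ * Complex.I) ^ k / (k.factorial : ℂ) := by
      simp only [f]
      rw [Finset.sum_range_succ']
      simp
      ring
    rw [← hf, ← hint]
    have hb : ‖∫ s in (0 : ℝ)..1, f' s‖ ≤ ∫ s in (0 : ℝ)..1, |θ| ^ (K + 1) / K.factorial * s ^ K := by
      refine intervalIntegral.norm_integral_le_of_norm_le zero_le_one ?_
        (Continuous.intervalIntegrable (by fun_prop) 0 1)
      refine Eventually.of_forall fun s hs => ?_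
      simp only [f']
      rw [norm_mul]
      have h0 : 0 ≤ s := hs.1.le
      have := ih (s * θ)
      rw [abs_mul, abs_of_nonneg h0] at this
      calc _ ≤ |θ| * ((s * |θ|) ^ K / K.factorial) := by
            refine mul_le_mul (by simp) this (norm_nonneg _) (abs_nonneg _)
        _ = _ := by rw [mul_pow]; ring
    refine hb.trans (le_of_eq ?_)
    rw [intervalIntegral.integral_const_mul, integral_pow, Nat.factorial_succ]
    have hk : ((K.factorial : ℕ) : ℝ) ≠ 0 := by exact_mod_cast K.factorial_ne_zero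
    push_cast
    field_simp
    simp

/-- the derivative of the potential as a function -/
noncomputable def dv (τ t x : ℝ) : ℝ := 6 * x ^ 5 - 4 * τ * x ^ 3 - 2 * t * x

lemma eval_dV (τ t x : ℝ) : (dV τ t).eval x = dv τ t x := by simp [dV, dv]

lemma natDegree_dV_le (τ t : ℝ) : (dV τ t).natDegree ≤ 5 := by
  unfold dV; compute_degree

/-- an exact quadrature rule of degree `N` with nonnegative weights -/
structure Quad (L : ℝ[X] →ₗ[ℝ] ℝ) (N : ℕ) (w x : Fin (N + 1) → ℝ) : Prop where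
  nonneg : ∀ j, 0 ≤ w j
  exact : ∀ p : ℝ[X], p.natDegree ≤ N → ∑ j, w j * p.eval (x j) = L p

variable {L : ℝ[X] →ₗ[ℝ] ℝ} {τ t : ℝ} {N : ℕ} {w x : Fin (N + 1) → ℝ}

lemma Quad.pow (q : Quad L N w x) (k : ℕ) (hk : k ≤ N) : ∑ j, w j * x j ^ k = L (X ^ k) := by
  simpa using q.exact (X ^ k) (by simpa using hk)

lemma Quad.pearson (q : Quad L N w x) (hp : pear τ t L = 0) (k : ℕ) (hk : k + 5 ≤ N) :
    ∑ j, w j * (k * x j ^ (k - 1) - dv τ t (x j) * x j ^ k) = 0 := by
  have h0 : pear τ t L (X ^ k) = 0 := by rw [hp]; rfl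
  rw [pear_apply, ← map_sub, ← q.exact] at h0
  · rw [← h0]
    refine Finset.sum_congr rfl fun j _ => ?_
    simp [derivative_X_pow, eval_dV]
  · refine (natDegree_sub_le _ _).trans (max_le ?_ ?_)
    · have := natDegree_derivative_le ((X : ℝ[X]) ^ k)
      rw [natDegree_X_pow] at this; omega
    · refine natDegree_mul_le.trans ?_
      have := natDegree_dV_le τ t
      rw [natDegree_X_pow]; omega

/-- the defect of the Pearson equation on an exponential -/
noncomputable def EE (τ t : ℝ) {N : ℕ} (w x : Fin (N + 1) → ℝ) (ξ : ℝ) : ℂ :=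
  ∑ j, (w j : ℂ) * ((ξ * Complex.I - dv τ t (x j)) * Complex.exp ((ξ * x j : ℝ) * Complex.I))

lemma Quad.taylor_zero (q : Quad L N w x) (hp : pear τ t L = 0) (K : ℕ) (hK : K + 5 ≤ N) (ξ : ℝ) :
    ∑ j, (w j : ℂ) * (ξ * Complex.I *
      ∑ k ∈ Finset.range K, (((ξ * x j : ℝ) : ℂ) * Complex.I) ^ k / (k.factorial : ℂ)
      - dv τ t (x j) *
      ∑ k ∈ Finset.range (K + 1), (((ξ * x j : ℝ) : ℂ) * Complex.I) ^ k / (k.factorial : ℂ)) = 0 := by
  have e : ∀ j, (w j : ℂ) * (ξ * Complex.I *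
      ∑ k ∈ Finset.range K, (((ξ * x j : ℝ) : ℂ) * Complex.I) ^ k / (k.factorial : ℂ)
      - dv τ t (x j) *
      ∑ k ∈ Finset.range (K + 1), (((ξ * x j : ℝ) : ℂ) * Complex.I) ^ k / (k.factorial : ℂ)) =
      ∑ k ∈ Finset.range (K + 1), (ξ * Complex.I) ^ k / (k.factorial : ℂ) *
        ((w j * (k * x j ^ (k - 1) - dv τ t (x j) * x j ^ k) : ℝ) : ℂ) := by
    intro j
    have e1 : (ξ * Complex.I *
      ∑ k ∈ Finset.range K, (((ξ * x j : ℝ) : ℂ) * Complex.I) ^ k / (k.factorial : ℂ)) =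
      ∑ k ∈ Finset.range (K + 1), (ξ * Complex.I) ^ k / (k.factorial : ℂ) *
        ((k * x j ^ (k - 1) : ℝ) : ℂ) := by
      rw [Finset.sum_range_succ', Finset.mul_sum]
      simp only [Nat.cast_zero, zero_mul, Complex.ofReal_zero, mul_zero, add_zero]
      refine Finset.sum_congr rfl fun k _ => ?_
      have hk : ((k.factorial : ℕ) : ℂ) ≠ 0 := by exact_mod_cast k.factorial_ne_zero
      have hk1 : ((k : ℂ) + 1) ≠ 0 := by exact_mod_cast k.succ_ne_zero
      rw [Nat.factorial_succ]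
      push_cast
      field_simp
      ring
    rw [e1, Finset.mul_sum, ← Finset.sum_sub_distrib, Finset.mul_sum]
    refine Finset.sum_congr rfl fun k _ => ?_
    push_cast
    ring
  simp only [e]
  rw [Finset.sum_comm]
  refine Finset.sum_eq_zero fun k hk => ?_
  rw [← Finset.mul_sum, ← Complex.ofReal_sum,
    q.pearson hp k (by have := Finset.mem_range.mp hk; omega)]
  simp

lemma abs_dv_mul_le (τ t y : ℝ) :
    |dv τ t y| * |y| ≤ 6 * y ^ 6 + 4 * |τ| * y ^ 4 + 2 * |t| * y ^ 2 := by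
  rw [← abs_mul]
  have e : dv τ t y * y = 6 * y ^ 6 + (-4) * (τ * y ^ 4) + (-2) * (t * y ^ 2) := by
    unfold dv; ring
  have h4 : |τ * y ^ 4| = |τ| * y ^ 4 := by rw [abs_mul, abs_of_nonneg (by positivity : 0 ≤ y ^ 4)]
  have h2 : |t * y ^ 2| = |t| * y ^ 2 := by rw [abs_mul, abs_of_nonneg (by positivity : 0 ≤ y ^ 2)]
  have h6 : 0 ≤ y ^ 6 := by positivity
  rw [e, abs_le]
  constructor <;> nlinarith [le_abs_self (τ * y ^ 4), neg_abs_le (τ * y ^ 4),
    le_abs_self (t * y ^ 2), neg_abs_le (t * y ^ 2)]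

lemma Quad.norm_EE_le (q : Quad L N w x) (hp : pear τ t L = 0) (M : ℕ) (hM : 2 * M + 6 ≤ N)
    (ξ : ℝ) : ‖EE τ t w x ξ‖ ≤ |ξ| ^ (2 * M + 1) / (2 * M).factorial * (L (X ^ (2 * M)) +
      (6 * L (X ^ (2 * M + 6)) + 4 * |τ| * L (X ^ (2 * M + 4)) + 2 * |t| * L (X ^ (2 * M + 2)))) := by
  have h0 := q.taylor_zero hp (2 * M) (by omega) ξ
  rw [← sub_zero (EE τ t w x ξ), ← h0, EE, ← Finset.sum_sub_distrib,
    ← q.pow _ (show 2 * M ≤ N by omega), ← q.pow _ (show 2 * M + 6 ≤ N by omega),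
    ← q.pow _ (show 2 * M + 4 ≤ N by omega), ← q.pow _ (show 2 * M + 2 ≤ N by omega)]
  simp only [Finset.mul_sum, ← Finset.sum_add_distrib]
  refine (norm_sum_le _ _).trans (Finset.sum_le_sum fun j _ => ?_)
  simp only [← Finset.mul_sum]
  set e := Complex.exp ((ξ * x j : ℝ) * Complex.I)
  set T1 := ∑ k ∈ Finset.range (2 * M), (((ξ * x j : ℝ) : ℂ) * Complex.I) ^ k / (k.factorial : ℂ)
  set T2 := ∑ k ∈ Finset.range (2 * M + 1),
    (((ξ * x j : ℝ) : ℂ) * Complex.I) ^ k / (k.factorial : ℂ)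
  have h1 : ‖e - T1‖ ≤ |ξ * x j| ^ (2 * M) / (2 * M).factorial := taylor_bound _ _
  have h2 : ‖e - T2‖ ≤ |ξ * x j| ^ (2 * M + 1) / (2 * M + 1).factorial := taylor_bound _ _
  have hfac : ((2 * M).factorial : ℝ) ≤ (2 * M + 1).factorial := by
    exact_mod_cast Nat.factorial_le (by omega)
  have hfp : (0 : ℝ) < (2 * M).factorial := by exact_mod_cast Nat.factorial_pos _
  have h2' : ‖e - T2‖ ≤ |ξ * x j| ^ (2 * M + 1) / (2 * M).factorial :=
    h2.trans (div_le_div_of_nonneg_left (by positivity) hfp hfac)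
  have ee : (w j : ℂ) * ((ξ * Complex.I - dv τ t (x j)) * e) -
      (w j : ℂ) * (ξ * Complex.I * T1 - dv τ t (x j) * T2) =
      (w j : ℂ) * (ξ * Complex.I * (e - T1) - dv τ t (x j) * (e - T2)) := by ring
  rw [ee, norm_mul, Complex.norm_real, Real.norm_eq_abs, abs_of_nonneg (q.nonneg j)]
  have hx : |x j| ^ (2 * M) = x j ^ (2 * M) := by rw [pow_mul, pow_mul, sq_abs]
  have hx0 : 0 ≤ x j ^ (2 * M) := by rw [← hx]; positivity
  have h3 : ‖ξ * Complex.I * (e - T1) - dv τ t (x j) * (e - T2)‖ ≤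
      |ξ| ^ (2 * M + 1) / (2 * M).factorial * (x j ^ (2 * M) + x j ^ (2 * M) *
        (6 * x j ^ 6 + 4 * |τ| * x j ^ 4 + 2 * |t| * x j ^ 2)) := by
    refine (norm_sub_le _ _).trans ?_
    rw [norm_mul, norm_mul, norm_mul, Complex.norm_I, Complex.norm_real, Complex.norm_real,
      Real.norm_eq_abs, Real.norm_eq_abs, mul_one, mul_add]
    refine add_le_add ?_ ?_
    · calc _ ≤ |ξ| * (|ξ * x j| ^ (2 * M) / (2 * M).factorial) := by gcongr
        _ = _ := by rw [abs_mul, mul_pow, hx]; ring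
    · calc _ ≤ |dv τ t (x j)| * (|ξ * x j| ^ (2 * M + 1) / (2 * M).factorial) := by gcongr
        _ = |ξ| ^ (2 * M + 1) / (2 * M).factorial * (x j ^ (2 * M) * (|dv τ t (x j)| * |x j|)) := by
          rw [abs_mul, mul_pow, pow_succ |x j|, hx]; ring
        _ ≤ _ := by gcongr; exact abs_dv_mul_le _ _ _
  calc _ ≤ w j * (|ξ| ^ (2 * M + 1) / (2 * M).factorial * (x j ^ (2 * M) + x j ^ (2 * M) *
        (6 * x j ^ 6 + 4 * |τ| * x j ^ 4 + 2 * |t| * x j ^ 2))) :=
        mul_le_mul_of_nonneg_left h3 (q.nonneg j)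
    _ = _ := by ring

lemma pearson_moment (hp : pear τ t L = 0) (k : ℕ) :
    6 * L (X ^ (k + 6)) = (k + 1) * L (X ^ k) + 4 * τ * L (X ^ (k + 4)) + 2 * t * L (X ^ (k + 2)) := by
  have h0 : pear τ t L (X ^ (k + 1)) = 0 := by rw [hp]; rfl
  rw [pear_apply, derivative_X_pow, L_C_mul] at h0
  have : dV τ t * X ^ (k + 1) = C 6 * X ^ (k + 6) - C (4 * τ) * X ^ (k + 4) - C (2 * t) * X ^ (k + 2) := by
    unfold dV; ring
  rw [this, map_sub, map_sub, L_C_mul, L_C_mul, L_C_mul] at h0
  simp only [Nat.add_sub_cancel] at h0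
  push_cast at h0
  linarith

lemma moment_bound (hp : pear τ t L = 0) :
    ∃ A : ℝ, 1 ≤ A ∧ ∀ j : ℕ, |L (X ^ (2 * j))| ≤ A ^ (j + 1) * j.factorial := by
  set A : ℝ := 1 + |L (X ^ 0)| + |L (X ^ 2)| + |L (X ^ 4)| + |τ| + |t| with hA
  have hτ := abs_nonneg τ
  have ht := abs_nonneg t
  have a0 := abs_nonneg (L (X ^ 0))
  have a2 := abs_nonneg (L (X ^ 2))
  have a4 := abs_nonneg (L (X ^ 4))
  have hA1 : 1 ≤ A := by linarith
  refine ⟨A, hA1, fun j => ?_⟩
  induction j using Nat.strong_induction_on with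
  | _ j ih =>
    rcases j with _ | _ | _ | j
    · simp only [mul_zero, zero_add, pow_one, Nat.factorial_zero, Nat.cast_one, mul_one]; linarith
    · have : A ≤ A ^ 2 := by nlinarith
      norm_num; linarith
    · have : A ≤ A ^ 3 := le_self_pow₀ hA1 (by norm_num)
      have : 0 ≤ A ^ 3 := by positivity
      norm_num [Nat.factorial]; linarith
    · have h0 := ih j (by omega)
      have h1 := ih (j + 1) (by omega)
      have h2 := ih (j + 2) (by omega)
      have e := pearson_moment hp (2 * j)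
      rw [show 2 * (j + 1) = 2 * j + 2 by ring] at h1
      rw [show 2 * (j + 2) = 2 * j + 4 by ring] at h2
      rw [show 2 * (j + 1 + 1 + 1) = 2 * j + 6 by ring]
      set F : ℝ := ((j + 1 + 1 + 1).factorial : ℝ) with hF
      have hF0 : (2 * j + 1) * (j.factorial : ℝ) ≤ 2 * F := by
        have : (j + 1).factorial ≤ (j + 1 + 1 + 1).factorial := Nat.factorial_le (by omega)
        have h' : (((j + 1).factorial : ℕ) : ℝ) ≤ F := by rw [hF]; exact_mod_cast this
        rw [Nat.factorial_succ] at h'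
        push_cast at h'
        have : (0 : ℝ) ≤ j.factorial := by positivity
        nlinarith
      have hF1 : (((j + 1).factorial : ℕ) : ℝ) ≤ F := by
        rw [hF]; exact_mod_cast Nat.factorial_le (by omega)
      have hF2 : (((j + 2).factorial : ℕ) : ℝ) ≤ F := by
        rw [hF]; exact_mod_cast Nat.factorial_le (by omega)
      have hFp : 0 ≤ F := by positivity
      set B := A ^ (j + 3) with hB
      have hB0 : A ^ (j + 1) ≤ B := pow_le_pow_right₀ hA1 (by omega)
      have hB1 : A ^ (j + 1 + 1) ≤ B := pow_le_pow_right₀ hA1 (by omega)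
      have hBp : 0 ≤ B := by positivity
      have g0 : |((2 * j : ℕ) + 1 : ℝ) * L (X ^ (2 * j))| ≤ 2 * (B * F) := by
        rw [abs_mul, abs_of_nonneg (by positivity)]
        push_cast
        calc _ ≤ (2 * j + 1) * (A ^ (j + 1) * j.factorial) := by gcongr
          _ = A ^ (j + 1) * ((2 * j + 1) * j.factorial) := by ring
          _ ≤ B * (2 * F) := by gcongr
          _ = _ := by ring
      have g1 : |2 * t * L (X ^ (2 * j + 2))| ≤ 2 * |t| * (B * F) := by
        rw [abs_mul, abs_mul, abs_of_nonneg (by norm_num : (0 : ℝ) ≤ 2)]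
        gcongr
        exact h1.trans (by gcongr)
      have g2 : |4 * τ * L (X ^ (2 * j + 4))| ≤ 4 * |τ| * (B * F) := by
        rw [abs_mul, abs_mul, abs_of_nonneg (by norm_num : (0 : ℝ) ≤ 4)]
        gcongr
        exact h2.trans (by gcongr)
      have g : |6 * L (X ^ (2 * j + 6))| ≤ (2 + 4 * |τ| + 2 * |t|) * (B * F) := by
        rw [e]
        refine (abs_add_three _ _ _).trans ?_
        linarith
      rw [abs_mul, abs_of_nonneg (by norm_num : (0 : ℝ) ≤ 6)] at g
      have : A ^ (j + 1 + 1 + 1 + 1) = A * B := by rw [hB]; ring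
      rw [this]
      have hBF : 0 ≤ B * F := by positivity
      have : (2 + 4 * |τ| + 2 * |t|) * (B * F) ≤ 6 * A * (B * F) := by
        gcongr; linarith
      nlinarith

end Pool.Agent.Lib.MP_d042fc_an
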