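import Pool.Agent.Lib.MP_d042fc_an.Weight

/-!
# Identification of a positive functional satisfying the Pearson equation
-/

namespace Pool.Agent.Lib.MP_d042fc_an

open Polynomial Filter Topology MeasureTheory
open scoped FourierTransform SchwartzMap ContDiff

variable {L : ℝ[X] →ₗ[ℝ] ℝ} {τ t : ℝ} {w x : ∀ N : ℕ, Fin (N + 1) → ℝ}

lemma tendsto_remainder (hp : pear τ t L = 0) (ξ : ℝ) :
    Tendsto (fun M : ℕ => |ξ| ^ (2 * M + 1) / (2 * M).factorial * (L (X ^ (2 * M)) +
      (6 * L (X ^ (2 * M + 6)) + 4 * |τ| * L (X ^ (2 * M + 4)) + 2 * |t| * L (X ^ (2 * M + 2)))))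
      atTop (𝓝 0) := by
  obtain ⟨A, hA1, hA⟩ := moment_bound hp
  rw [← tendsto_add_atTop_iff_nat 3]
  have hτ := abs_nonneg τ
  have ht := abs_nonneg t
  have h0 := (FloorSemiring.tendsto_pow_div_factorial_atTop (|ξ| ^ 2 * A)).const_mul
    (|ξ| ^ 7 * A ^ 7 * (7 + 4 * |τ| + 2 * |t|))
  rw [mul_zero] at h0
  refine squeeze_zero_norm (fun M => ?_) h0
  set B : ℝ := A ^ (M + 7) * (M + 6).factorial with hB
  have hb : ∀ j ≤ M + 6, |L (X ^ (2 * j))| ≤ B := by
    intro j hj
    refine (hA j).trans ?_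
    have h1 : A ^ (j + 1) ≤ A ^ (M + 7) := pow_le_pow_right₀ hA1 (by omega)
    have h2 : (j.factorial : ℝ) ≤ (M + 6).factorial := by exact_mod_cast Nat.factorial_le hj
    rw [hB]; gcongr
  have b0 := hb (M + 3) (by omega)
  have b1 := hb (M + 4) (by omega)
  have b2 := hb (M + 5) (by omega)
  have b3 := hb (M + 6) (by omega)
  rw [show 2 * (M + 4) = 2 * (M + 3) + 2 by ring] at b1
  rw [show 2 * (M + 5) = 2 * (M + 3) + 4 by ring] at b2
  rw [show 2 * (M + 6) = 2 * (M + 3) + 6 by ring] at b3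
  have hS : |L (X ^ (2 * (M + 3))) + (6 * L (X ^ (2 * (M + 3) + 6)) +
      4 * |τ| * L (X ^ (2 * (M + 3) + 4)) + 2 * |t| * L (X ^ (2 * (M + 3) + 2)))| ≤
      (7 + 4 * |τ| + 2 * |t|) * B := by
    refine (abs_add_le _ _).trans ?_
    have := abs_add_three (6 * L (X ^ (2 * (M + 3) + 6))) (4 * |τ| * L (X ^ (2 * (M + 3) + 4)))
      (2 * |t| * L (X ^ (2 * (M + 3) + 2)))
    rw [abs_mul, abs_mul (4 * |τ|), abs_mul (2 * |t|), abs_of_nonneg (by norm_num : (0 : ℝ) ≤ 6),
      abs_of_nonneg (by positivity : 0 ≤ 4 * |τ|), abs_of_nonneg (by positivity : 0 ≤ 2 * |t|)] at this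
    have c2 : 4 * |τ| * |L (X ^ (2 * (M + 3) + 4))| ≤ 4 * |τ| * B := by gcongr
    have c1 : 2 * |t| * |L (X ^ (2 * (M + 3) + 2))| ≤ 2 * |t| * B := by gcongr
    linarith
  have hfac : ((M + 6).factorial : ℝ) * M.factorial ≤ (2 * (M + 3)).factorial := by
    have := Nat.le_of_dvd (Nat.factorial_pos _) (Nat.factorial_mul_factorial_dvd_factorial_add (M + 6) M)
    rw [show M + 6 + M = 2 * (M + 3) by ring] at this
    exact_mod_cast this
  have hM : (0 : ℝ) < M.factorial := by exact_mod_cast Nat.factorial_pos _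
  have hM6 : (0 : ℝ) < (M + 6).factorial := by exact_mod_cast Nat.factorial_pos _
  rw [Real.norm_eq_abs, abs_mul, abs_of_nonneg (by positivity)]
  calc _ ≤ |ξ| ^ (2 * (M + 3) + 1) / (((M + 6).factorial : ℝ) * M.factorial) *
        ((7 + 4 * |τ| + 2 * |t|) * B) := by gcongr
    _ = _ := by rw [hB]; field_simp; ring

lemma tendsto_EE (q : ∀ N, Quad L N (w N) (x N)) (hp : pear τ t L = 0) (ξ : ℝ) :
    Tendsto (fun N => EE τ t (w N) (x N) ξ) atTop (𝓝 0) := by
  rw [NormedAddGroup.tendsto_nhds_zero]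
  intro ε hε
  obtain ⟨M, hM⟩ := ((tendsto_remainder hp ξ).eventually (gt_mem_nhds hε)).exists
  filter_upwards [eventually_ge_atTop (2 * M + 6)] with N hN
  exact ((q N).norm_EE_le hp M hN ξ).trans_lt hM

lemma continuous_EE (τ t : ℝ) {N : ℕ} (w x : Fin (N + 1) → ℝ) : Continuous (EE τ t w x) := by
  unfold EE; fun_prop

lemma tendsto_test (q : ∀ N, Quad L N (w N) (x N)) (hp : pear τ t L = 0) {h h' : ℝ → ℝ}
    (hs : ContDiff ℝ ∞ h) (hc : HasCompactSupport h) (hd : ∀ y, HasDerivAt h (h' y) y) :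
    Tendsto (fun N => ∑ j, w N j * (h' (x N j) - dv τ t (x N j) * h (x N j))) atTop (𝓝 0) := by
  have hs' : ContDiff ℝ ∞ fun y => (h y : ℂ) := Complex.ofRealCLM.contDiff.comp hs
  have hc' : HasCompactSupport fun y => (h y : ℂ) := hc.comp_left (g := fun r : ℝ => (r : ℂ)) (by simp)
  let H : 𝓢(ℝ, ℂ) := hc'.toSchwartzMap hs'
  let G : 𝓢(ℝ, ℂ) := 𝓕⁻ H
  have hHG : (fun y => (h y : ℂ)) = 𝓕 (G : ℝ → ℂ) := by
    rw [← SchwartzMap.fourier_coe, FourierTransform.fourier_fourierInv_eq]; rfl
  have hG1 : Integrable (G : ℝ → ℂ) := G.integrable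
  have hG2 : Integrable fun ξ : ℝ => ‖ξ‖ * ‖G ξ‖ := by simpa using G.integrable_pow_mul volume 1
  have hG3 : Integrable fun ξ : ℝ => ξ • G ξ := by
    refine hG2.mono' ?_ (Eventually.of_forall fun ξ => by rw [norm_smul])
    exact (continuous_id.smul G.continuous).aestronglyMeasurable
  have hder : ∀ y, (h' y : ℂ) = 𝓕 (fun ξ : ℝ => (-2 * Real.pi * Complex.I * ξ) • G ξ) y := by
    intro y
    have h1 := Real.hasDerivAt_fourier hG1 hG3 y
    rw [← hHG] at h1
    exact (hd y).ofReal_comp.unique h1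
  have hval : ∀ y, (h y : ℂ) = 𝓕 (G : ℝ → ℂ) y := fun y => congrFun hHG y
  have hint : ∀ y : ℝ, Integrable fun ξ : ℝ =>
      (((-2 * Real.pi * ξ : ℝ) * Complex.I - dv τ t y) *
        Complex.exp (((-2 * Real.pi * ξ) * y : ℝ) * Complex.I)) * G ξ := by
    intro y
    refine ((hG2.const_mul (2 * Real.pi)).add (hG1.norm.const_mul |dv τ t y|)).mono' ?_
      (Eventually.of_forall fun ξ => ?_)
    · have := G.continuous
      exact Continuous.aestronglyMeasurable (by fun_prop)
    · rw [norm_mul, norm_mul, Complex.norm_exp_ofReal_mul_I, mul_one, Pi.add_apply, ← mul_assoc,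
        ← add_mul]
      gcongr
      refine (norm_sub_le _ _).trans (le_of_eq ?_)
      simp [abs_of_pos Real.pi_pos]
  have hpt : ∀ y : ℝ, ((h' y - dv τ t y * h y : ℝ) : ℂ) = ∫ ξ : ℝ,
      (((-2 * Real.pi * ξ : ℝ) * Complex.I - dv τ t y) *
        Complex.exp (((-2 * Real.pi * ξ) * y : ℝ) * Complex.I)) * G ξ := by
    intro y
    have i1 : Integrable fun ξ : ℝ => Complex.exp (((-2 * Real.pi * ξ * y : ℝ) : ℂ) * Complex.I) •
        G ξ := by
      refine hG1.norm.mono' ?_ (Eventually.of_forall fun ξ => ?_)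
      · have := G.continuous
        exact Continuous.aestronglyMeasurable (by fun_prop)
      · rw [norm_smul, Complex.norm_exp_ofReal_mul_I, one_mul]
    have i2 : Integrable fun ξ : ℝ => Complex.exp (((-2 * Real.pi * ξ * y : ℝ) : ℂ) * Complex.I) •
        ((-2 * Real.pi * Complex.I * ξ) • G ξ) := by
      refine (hG2.const_mul (2 * Real.pi)).mono' ?_ (Eventually.of_forall fun ξ => ?_)
      · have := G.continuous
        exact Continuous.aestronglyMeasurable (by fun_prop)
      · rw [norm_smul, Complex.norm_exp_ofReal_mul_I, one_mul, norm_smul]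
        simp [abs_of_pos Real.pi_pos, mul_assoc]
    push_cast
    rw [hder, hval, Real.fourier_real_eq_integral_exp_smul, Real.fourier_real_eq_integral_exp_smul,
      ← integral_const_mul, ← integral_sub i2 (i1.const_mul _)]
    refine integral_congr_ae (Eventually.of_forall fun ξ => ?_)
    simp only [smul_eq_mul]
    push_cast
    ring
  have hsum : ∀ N, ((∑ j, w N j * (h' (x N j) - dv τ t (x N j) * h (x N j)) : ℝ) : ℂ) =
      ∫ ξ : ℝ, EE τ t (w N) (x N) (-2 * Real.pi * ξ) * G ξ := by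
    intro N
    rw [Complex.ofReal_sum]
    simp only [Complex.ofReal_mul (w N _), hpt, ← integral_const_mul]
    rw [← integral_finsetSum _ (fun j _ => (hint (x N j)).const_mul _)]
    refine integral_congr_ae (Eventually.of_forall fun ξ => ?_)
    simp only [EE, Finset.sum_mul, mul_assoc]
  have hlim : Tendsto (fun N => ∫ ξ : ℝ, EE τ t (w N) (x N) (-2 * Real.pi * ξ) * G ξ) atTop
      (𝓝 (∫ _ξ : ℝ, (0 : ℂ))) := by
    set c : ℝ := L (X ^ (2 * 0)) +
      (6 * L (X ^ (2 * 0 + 6)) + 4 * |τ| * L (X ^ (2 * 0 + 4)) + 2 * |t| * L (X ^ (2 * 0 + 2)))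
    refine tendsto_integral_filter_of_dominated_convergence
      (fun ξ => (2 * Real.pi * c) * (‖ξ‖ * ‖G ξ‖)) (Eventually.of_forall fun N => ?_) ?_
      (hG2.const_mul _) (Eventually.of_forall fun ξ => ?_)
    · have := G.continuous
      have := continuous_EE τ t (w N) (x N)
      exact Continuous.aestronglyMeasurable (by fun_prop)
    · filter_upwards [eventually_ge_atTop 6] with N hN
      refine Eventually.of_forall fun ξ => ?_
      have := (q N).norm_EE_le hp 0 hN (-2 * Real.pi * ξ)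
      rw [norm_mul]
      calc _ ≤ (|-2 * Real.pi * ξ| ^ (2 * 0 + 1) / (2 * 0).factorial * c) * ‖G ξ‖ := by gcongr
        _ = _ := by simp [abs_mul, abs_of_pos Real.pi_pos]; ring
    · simpa using (tendsto_EE q hp (-2 * Real.pi * ξ)).mul_const (G ξ)
  rw [integral_zero] at hlim
  simp only [← hsum] at hlim
  have hre := (Complex.continuous_re.tendsto 0).comp hlim
  simpa only [Function.comp_def, Complex.ofReal_re, Complex.zero_re] using hre

lemma tendsto_test_zero (q : ∀ N, Quad L N (w N) (x N)) (hp : pear τ t L = 0) {g : ℝ → ℝ}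
    (hs : ContDiff ℝ ∞ g) {R : ℝ} (hg : ∀ y, R ≤ |y| → g y = 0)
    (h0 : ∫ y, g y * weight τ t y = 0) :
    Tendsto (fun N => ∑ j, w N j * g (x N j)) atTop (𝓝 0) := by
  have hgw : ContDiff ℝ ∞ fun y => g y * weight τ t y := hs.mul (contDiff_weight τ t)
  let F : ℝ → ℝ := fun y => ∫ s in (-R)..y, g s * weight τ t s
  have hF : ∀ y, HasDerivAt F (g y * weight τ t y) y := fun y =>
    (hgw.continuous.integral_hasStrictDerivAt (-R) y).hasDerivAt
  have hFs : ContDiff ℝ ∞ F := by
    rw [contDiff_infty_iff_deriv]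
    refine ⟨fun y => (hF y).differentiableAt, ?_⟩
    have : deriv F = fun y => g y * weight τ t y := funext fun y => (hF y).deriv
    rw [this]; exact hgw
  have hF0 : ∀ y, R < |y| → F y = 0 := by
    intro y hy
    rcases lt_abs.mp hy with hy | hy
    · rw [← h0]
      refine intervalIntegral.integral_eq_integral_of_support_subset fun s hs => ?_
      have : ¬ R ≤ |s| := fun h => hs (by simp [hg s h])
      have := abs_lt.mp (not_le.mp this)
      exact ⟨this.1, by linarith [this.2]⟩
    · simp only [F]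
      rw [← intervalIntegral.integral_zero (a := -R) (b := y) (μ := volume)]
      refine intervalIntegral.integral_congr fun s hs => ?_
      rw [Set.uIcc_of_ge (by linarith)] at hs
      have : R ≤ |s| := le_abs.mpr (Or.inr (by linarith [hs.2]))
      simp [hg s this]
  let h : ℝ → ℝ := fun y => F y / weight τ t y
  have hhs : ContDiff ℝ ∞ h := hFs.div (contDiff_weight τ t) fun y => (weight_pos τ t y).ne'
  have hhc : HasCompactSupport h := by
    refine HasCompactSupport.intro (isCompact_Icc (a := -R) (b := R)) fun y hy => ?_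
    have : R < |y| := by
      by_contra hc
      exact hy (abs_le.mp (not_lt.mp hc))
    simp [h, hF0 y this]
  have hhd : ∀ y, HasDerivAt h (g y + dv τ t y * h y) y := by
    intro y
    refine ((hF y).div (hasDerivAt_weight τ t y) (weight_pos τ t y).ne').congr_deriv ?_
    have := (weight_pos τ t y).ne'
    simp only [h]
    field_simp
    ring
  simpa using tendsto_test q hp hhs hhc hhd

lemma even_moment_eq (q : ∀ N, Quad L N (w N) (x N)) (hp : pear τ t L = 0) (h1 : L 1 = 1)
    (k : ℕ) : L (X ^ (2 * k)) = moment τ t (2 * k) / moment τ t 0 := by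
  let χ : ℕ → ContDiffBump (0 : ℝ) := fun n => ⟨n + 1, n + 2, by positivity, by linarith⟩
  have hχ0 : ∀ n y, 0 ≤ χ n y := fun n y => (χ n).nonneg
  have hχ1 : ∀ n y, χ n y ≤ 1 := fun n y => (χ n).le_one
  have hχs : ∀ n, ContDiff ℝ ∞ (χ n) := fun n => (χ n).contDiff
  have hχone : ∀ (n : ℕ) (y : ℝ), |y| ≤ n + 1 → χ n y = 1 := fun n y hy =>
    (χ n).one_of_mem_closedBall (by simpa using hy)
  have hχzero : ∀ (n : ℕ) (y : ℝ), (n : ℝ) + 2 ≤ |y| → χ n y = 0 := fun n y hy =>
    (χ n).zero_of_le_dist (by simpa using hy)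
  have hint : ∀ n m : ℕ, Integrable fun y => y ^ m * χ n y * weight τ t y := by
    intro n m
    refine (integrable_pow_mul_weight τ t m).norm.mono' ?_ (Eventually.of_forall fun y => ?_)
    · exact (((continuous_pow m).mul (hχs n).continuous).mul
        (continuous_weight τ t)).aestronglyMeasurable
    · rw [norm_mul, norm_mul, norm_mul, Real.norm_of_nonneg (hχ0 n y)]
      gcongr
      exact mul_le_of_le_one_right (norm_nonneg _) (hχ1 n y)
  have hconv : ∀ m : ℕ, Tendsto (fun n => ∫ y, y ^ m * χ n y * weight τ t y) atTop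
      (𝓝 (moment τ t m)) := by
    intro m
    refine tendsto_integral_filter_of_dominated_convergence
      (fun y => ‖y ^ m * weight τ t y‖) (Eventually.of_forall fun n => (hint n m).1)
      (Eventually.of_forall fun n => Eventually.of_forall fun y => ?_)
      (integrable_pow_mul_weight τ t m).norm (Eventually.of_forall fun y => ?_)
    · rw [norm_mul, norm_mul, norm_mul, Real.norm_of_nonneg (hχ0 n y)]
      gcongr
      exact mul_le_of_le_one_right (norm_nonneg _) (hχ1 n y)
    · refine tendsto_const_nhds.congr' ?_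
      filter_upwards [eventually_ge_atTop ⌈|y|⌉₊] with n hn
      rw [hχone n y (by have := Nat.ceil_le.mp hn; linarith), mul_one]
  let c : ℕ → ℝ := fun n =>
    (∫ y, y ^ (2 * k) * χ n y * weight τ t y) / ∫ y, y ^ 0 * χ n y * weight τ t y
  have hc : Tendsto c atTop (𝓝 (moment τ t (2 * k) / moment τ t 0)) :=
    (hconv (2 * k)).div (hconv 0) (moment_zero_pos τ t).ne'
  have hpos : ∀ᶠ n in atTop, 0 < ∫ y, y ^ 0 * χ n y * weight τ t y :=
    (hconv 0).eventually (lt_mem_nhds (moment_zero_pos τ t))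
  -- tail bound
  have htail : ∀ (n N m : ℕ), 2 * m + 2 ≤ N →
      |L (X ^ (2 * m)) - ∑ j, w N j * (x N j ^ (2 * m) * χ n (x N j))| ≤
        L (X ^ (2 * m + 2)) / (n + 1) := by
    intro n N m hN
    rw [← (q N).pow _ (show 2 * m ≤ N by omega), ← (q N).pow _ hN, ← Finset.sum_sub_distrib,
      Finset.sum_div]
    refine (Finset.abs_sum_le_sum_abs _ _).trans (Finset.sum_le_sum fun j _ => ?_)
    have hw := (q N).nonneg j
    set y := x N j
    have hy : 0 ≤ y ^ (2 * m) := by rw [pow_mul]; positivity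
    have hn : (0 : ℝ) < n + 1 := by positivity
    have key : 1 - χ n y ≤ y ^ 2 / (n + 1) := by
      rcases le_total |y| (n + 1) with h | h
      · rw [hχone n y h]; simp; positivity
      · have : (n + 1 : ℝ) ≤ y ^ 2 := by
          rw [← sq_abs]; have : (0 : ℝ) ≤ n := n.cast_nonneg; nlinarith
        have : 1 ≤ y ^ 2 / (n + 1) := by rwa [le_div_iff₀ hn, one_mul]
        linarith [hχ0 n y]
    have e : w N j * y ^ (2 * m) - w N j * (y ^ (2 * m) * χ n y) =
        w N j * y ^ (2 * m) * (1 - χ n y) := by ring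
    have h1' : 0 ≤ 1 - χ n y := by linarith [hχ1 n y]
    rw [e, abs_of_nonneg (by positivity)]
    calc _ ≤ w N j * y ^ (2 * m) * (y ^ 2 / (n + 1)) := by gcongr
      _ = _ := by ring
  have hbound : ∀ᶠ n in atTop, |L (X ^ (2 * k)) - c n| ≤
      (L (X ^ (2 * k + 2)) + |c n| * L (X ^ (2 * 0 + 2))) / (n + 1) := by
    filter_upwards [hpos] with n hn
    have hT := tendsto_test_zero q hp (g := fun y => y ^ (2 * k) * χ n y - c n * (y ^ 0 * χ n y))
      (((contDiff_id.pow _).mul (hχs n)).sub (contDiff_const.mul ((contDiff_id.pow _).mul (hχs n))))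
      (R := n + 2) (fun y hy => by simp [hχzero n y hy]) (by
        simp only [sub_mul, mul_assoc (c n)]
        rw [integral_sub (hint n _) ((hint n 0).const_mul _), integral_const_mul]
        simp only [c]
        rw [div_mul_cancel₀ _ hn.ne', sub_self])
    have hT' := (hT.abs).add_const ((L (X ^ (2 * k + 2)) + |c n| * L (X ^ (2 * 0 + 2))) / (n + 1))
    rw [abs_zero, zero_add] at hT'
    refine ge_of_tendsto hT' ?_
    filter_upwards [eventually_ge_atTop (2 * k + 2)] with N hN
    have t1 := htail n N k hN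
    have t2 := htail n N 0 (by omega)
    rw [mul_zero, pow_zero (X : ℝ[X]), h1] at t2
    set S1 := ∑ j, w N j * (x N j ^ (2 * k) * χ n (x N j))
    set S2 := ∑ j, w N j * (x N j ^ 0 * χ n (x N j))
    have e : ∑ j, w N j * (x N j ^ (2 * k) * χ n (x N j) - c n * (x N j ^ 0 * χ n (x N j))) =
        S1 - c n * S2 := by
      simp only [S1, S2, Finset.mul_sum, ← Finset.sum_sub_distrib]
      exact Finset.sum_congr rfl fun j _ => by ring
    rw [e]
    have e2 : L (X ^ (2 * k)) - c n = (S1 - c n * S2) + ((L (X ^ (2 * k)) - S1) +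
      (- c n) * (1 - S2)) := by ring
    rw [e2]
    refine (abs_add_le _ _).trans (add_le_add le_rfl ((abs_add_le _ _).trans ?_))
    rw [abs_mul, abs_neg, add_div, mul_div_assoc]
    gcongr
    exact t2
  have hlim : Tendsto (fun n : ℕ => (L (X ^ (2 * k + 2)) + |c n| * L (X ^ (2 * 0 + 2))) / (n + 1))
      atTop (𝓝 0) := by
    have h1 := (hc.abs.mul_const (L (X ^ (2 * 0 + 2)))).const_add (L (X ^ (2 * k + 2)))
    have h2 := h1.mul (tendsto_one_div_add_atTop_nhds_zero_nat (𝕜 := ℝ))
    rw [mul_zero (_ : ℝ)] at h2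
    refine h2.congr fun n => by ring
  have h3 : Tendsto (fun n => L (X ^ (2 * k)) - c n) atTop (𝓝 0) :=
    squeeze_zero_norm' hbound hlim
  have h4 := tendsto_nhds_unique h3 (hc.const_sub (L (X ^ (2 * k))))
  linarith

/-- the first two values of a positive solution -/
lemma IsPositiveSolution.first_two {b : ℕ → ℝ} (hb : IsPositiveSolution τ t b) :
    b 1 = moment τ t 2 / moment τ t 0 ∧
      b 2 = moment τ t 4 / moment τ t 2 - moment τ t 2 / moment τ t 0 := by
  obtain ⟨L, hL⟩ := exists_orth hb.1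
  choose w x hw hx using hL.quadrature hb.2.1
  have q : ∀ N, Quad L N (w N) (x N) := fun N => ⟨hw N, hx N⟩
  have hp := hL.pear_eq_zero hb
  have e2 := even_moment_eq q hp hL.one 1
  have e4 := even_moment_eq q hp hL.one 2
  rw [show 2 * 1 = 2 from rfl, hL.X_two] at e2
  rw [show 2 * 2 = 4 from rfl, hL.X_four] at e4
  refine ⟨e2, ?_⟩
  have h0 := moment_zero_pos τ t
  have h1 := hb.2.1 1 le_rfl
  have h2 : moment τ t 2 = b 1 * moment τ t 0 := by rw [e2]; field_simp
  have h4 : moment τ t 4 = b 1 * (b 1 + b 2) * moment τ t 0 := by rw [e4]; field_simp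
  rw [h2, h4]
  field_simp
  ring

end Pool.Agent.Lib.MP_d042fc_an
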