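import Pool.Agent.Lib.MP_d042fc_an.Limit

/-!
# A functional with finitely many negative squares becomes positive after a polynomial factor
-/

namespace Pool.Agent.Lib.MP_d042fc_an.Osc

open Polynomial Filter Topology
open scoped ComplexConjugate

variable {L : ℝ[X] →ₗ[ℝ] ℝ} {b : ℕ → ℝ}

/-- the complex linear extension of a functional -/
noncomputable def LC (L : ℝ[X] →ₗ[ℝ] ℝ) : ℂ[X] →ₗ[ℂ] ℂ :=
  Polynomial.lsum fun k => LinearMap.toSpanSingleton ℂ ℂ ((L (X ^ k) : ℝ) : ℂ)

lemma LC_monomial (k : ℕ) (a : ℂ) : LC L (monomial k a) = a * (L (X ^ k) : ℝ) := by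
  simp [LC, Polynomial.lsum_apply, Polynomial.sum_monomial_index]

lemma LC_map (p : ℝ[X]) : LC L (p.map (algebraMap ℝ ℂ)) = (L p : ℝ) := by
  induction p using Polynomial.induction_on' with
  | add p q hp hq => rw [Polynomial.map_add, map_add, map_add, hp, hq]; push_cast; ring
  | monomial k a =>
    rw [Polynomial.map_monomial, LC_monomial, ← C_mul_X_pow_eq_monomial, L_C_mul]
    simp

lemma LC_C_mul (a : ℂ) (p : ℂ[X]) : LC L (C a * p) = a * LC L p := by
  rw [← smul_eq_C_mul, map_smul, smul_eq_mul]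

lemma coprime (hb : ∀ n, 1 ≤ n → b n ≠ 0) (n : ℕ) :
    IsCoprime (recPoly b (n + 1)) (recPoly b n) := by
  induction n with
  | zero => rw [recPoly_zero]; exact isCoprime_one_right
  | succ n ih =>
    have hu : IsUnit (-C (b (n + 1)) : ℝ[X]) :=
      (isUnit_C.mpr (isUnit_iff_ne_zero.mpr (hb _ (by omega)))).neg
    have h1 : IsCoprime (-C (b (n + 1)) * recPoly b n) (recPoly b (n + 1)) :=
      (isCoprime_mul_unit_left_left hu _ _).mpr ih.symm
    have := h1.add_mul_right_left X
    rw [recPoly_add_two, show X * recPoly b (n + 1) - C (b (n + 1)) * recPoly b n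
      = -C (b (n + 1)) * recPoly b n + X * recPoly b (n + 1) by ring]
    exact this

lemma exists_nodup (hb : ∀ n, 1 ≤ n → b n ≠ 0) (N : ℕ) : ∃ t : ℝ,
    ((recPoly b (N + 1) + C t * recPoly b N).map (algebraMap ℝ ℂ)).roots.Nodup := by
  classical
  set P := recPoly b (N + 1) with hP
  set R := recPoly b N with hR
  have hc : IsCoprime P R := coprime hb N
  set W := derivative P * R - P * derivative R with hW
  have hW0 : W ≠ 0 := by
    intro h
    have h1 : P ∣ derivative P * R := ⟨derivative R, by linear_combination h⟩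
    have h2 := hc.dvd_of_dvd_mul_right h1
    have h3 : (derivative P).natDegree < P.natDegree :=
      natDegree_derivative_lt (by rw [hP, recPoly_natDegree]; omega)
    have h4 := Polynomial.derivative_eq_zero.mp (eq_zero_of_dvd_of_natDegree_lt h2 h3)
    rw [hP, recPoly_natDegree] at h4
    omega
  have hWc : W.map (algebraMap ℝ ℂ) ≠ 0 := Polynomial.map_ne_zero hW0
  obtain ⟨t, ht⟩ := Infinite.exists_notMem_finset
    ((W.map (algebraMap ℝ ℂ)).roots.toFinset.image fun z => (-(aeval z P) / aeval z R).re)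
  refine ⟨t, Multiset.nodup_iff_count_le_one.mpr fun z => ?_⟩
  by_contra hz
  have hm : (P + C t * R).Monic := by
    refine (recPoly_monic b (N + 1)).add_of_left ?_
    refine (degree_mul_le _ _).trans_lt ?_
    rw [recPoly_degree, recPoly_degree]
    refine (add_le_add degree_C_le le_rfl).trans_lt ?_
    rw [zero_add]
    exact_mod_cast Nat.lt_succ_self N
  rw [not_le, count_roots, one_lt_rootMultiplicity_iff_isRoot (hm.map _).ne_zero,
    derivative_map] at hz
  obtain ⟨h1, h2⟩ := hz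
  rw [IsRoot, eval_map_algebraMap] at h1 h2
  simp only [map_add, map_mul, aeval_C, derivative_mul, derivative_C, zero_mul, zero_add,
    Complex.coe_algebraMap] at h1 h2
  have hR0 : aeval z R ≠ 0 := by
    intro h0
    rw [h0, mul_zero, add_zero] at h1
    obtain ⟨u, v, huv⟩ := hc
    have := congrArg (aeval z) huv
    simp [h0, h1] at this
  refine ht (Finset.mem_image.mpr ⟨z, ?_, ?_⟩)
  · rw [Multiset.mem_toFinset, mem_roots hWc, IsRoot, eval_map_algebraMap]
    simp only [hW, map_sub, map_mul]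
    linear_combination (aeval z R) * h2 - (aeval z (derivative R)) * h1
  · have : -(aeval z P) / aeval z R = (t : ℂ) := by
      rw [div_eq_iff hR0]; linear_combination -h1
    rw [this, Complex.ofReal_re]

lemma quad (h : Orth L b) (hb : ∀ n, 1 ≤ n → b n ≠ 0) (N : ℕ) (hN : 1 ≤ N) :
    ∃ (Z : Finset ℂ) (lam : ℂ → ℂ), Z.card = N + 1 ∧ (∀ z ∈ Z, conj z ∈ Z) ∧
      ∀ p : ℂ[X], p.natDegree ≤ 2 * N → LC L p = ∑ z ∈ Z, lam z * p.eval z := by
  classical
  obtain ⟨t, ht⟩ := exists_nodup hb N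
  set G := recPoly b (N + 1) + C t * recPoly b N with hG
  have hlt : (C t * recPoly b N).degree < (recPoly b (N + 1)).degree := by
    refine (degree_mul_le _ _).trans_lt ?_
    rw [recPoly_degree, recPoly_degree]
    refine (add_le_add degree_C_le le_rfl).trans_lt ?_
    rw [zero_add]
    exact_mod_cast Nat.lt_succ_self N
  have hm : G.Monic := (recPoly_monic b (N + 1)).add_of_left hlt
  have hd : G.natDegree = N + 1 := by
    rw [hG, natDegree_add_eq_left_of_degree_lt hlt, recPoly_natDegree]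
  set Gc := G.map (algebraMap ℝ ℂ) with hGc
  have hmc : Gc.Monic := hm.map _
  have hdc : Gc.natDegree = N + 1 := by rw [hGc, hm.natDegree_map, hd]
  have hcard : Gc.roots.toFinset.card = N + 1 := by
    rw [Multiset.toFinset_card_of_nodup ht, IsAlgClosed.card_roots_eq_natDegree, hdc]
  have hmem : ∀ z, z ∈ Gc.roots.toFinset ↔ aeval z G = 0 := by
    intro z
    rw [Multiset.mem_toFinset, mem_roots hmc.ne_zero, IsRoot, eval_map_algebraMap]
  refine ⟨Gc.roots.toFinset, fun z => LC L (Lagrange.basis Gc.roots.toFinset id z), hcard,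
    fun z hz => ?_, fun p hp => ?_⟩
  · rw [hmem] at hz ⊢
    rw [aeval_conj, hz, map_zero]
  have h1 : LC L (Gc * (p /ₘ Gc)) = 0 := by
    have hr : (p /ₘ Gc).natDegree < N := by
      rw [natDegree_divByMonic p hmc, hdc]; omega
    rw [(p /ₘ Gc).as_sum_range_C_mul_X_pow' hr, Finset.mul_sum, map_sum]
    refine Finset.sum_eq_zero fun k hk => ?_
    have hk' := Finset.mem_range.mp hk
    have e : Gc * (C ((p /ₘ Gc).coeff k) * X ^ k)
        = C ((p /ₘ Gc).coeff k) * (X ^ k * G).map (algebraMap ℝ ℂ) := by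
      rw [Polynomial.map_mul, Polynomial.map_pow, map_X]; ring
    have e2 : X ^ k * G = X ^ k * recPoly b (N + 1) + C t * (X ^ k * recPoly b N) := by
      rw [hG]; ring
    rw [e, LC_C_mul, LC_map, e2, map_add, L_C_mul, h.X_pow_lt k _ (by omega),
      h.X_pow_lt k _ hk']
    simp
  have h2 : (p %ₘ Gc).degree < Gc.roots.toFinset.card := by
    rw [hcard, ← hdc, ← degree_eq_natDegree hmc.ne_zero]
    exact degree_modByMonic_lt p hmc
  have h3 := Lagrange.eq_interpolate (s := Gc.roots.toFinset) (v := id) (f := p %ₘ Gc)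
    (Set.injOn_id _) h2
  conv_lhs => rw [← modByMonic_add_div p Gc, map_add, h1, add_zero, h3,
    Lagrange.interpolate_apply, map_sum]
  refine Finset.sum_congr rfl fun z hz => ?_
  rw [LC_C_mul, mul_comm]
  congr 1
  have hz0 : Gc.eval z = 0 := by rw [hGc, eval_map_algebraMap]; exact (hmem z).1 hz
  conv_rhs => rw [← modByMonic_add_div p Gc, eval_add, eval_mul, hz0, zero_mul, add_zero]
  rfl

lemma level (h : Orth L b) (hb : ∀ n, 1 ≤ n → b n ≠ 0) {s : ℝ} {N0 : ℕ}
    (hs : ∀ n, N0 ≤ n → 0 < s * hh b n) (N : ℕ) (hN : 1 ≤ N) (hN0 : N0 ≤ N) :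
    ∃ Q : ℝ[X], Q ≠ 0 ∧ Q.natDegree ≤ 2 * N0 ∧ (∀ y, 0 ≤ Q.eval y) ∧
      ∀ p : ℝ[X], N0 + p.natDegree ≤ N → 0 ≤ s * L (Q * (p * p)) := by
  classical
  obtain ⟨Z, lam, hZ, hconj, hq⟩ := quad h hb N hN
  set U := Z.filter fun z => 0 < z.im ∨ (z.im = 0 ∧ (s * lam z).re < 0) with hU
  have hUc : U.card ≤ N0 := by
    by_contra hcon
    rw [not_le] at hcon
    let f : (Fin (N + 1 - N0) → ℂ) →ₗ[ℂ] (↥(Z \ U) → ℂ) :=
      LinearMap.pi fun z => ∑ i : Fin (N + 1 - N0),
        (aeval (z : ℂ) (recPoly b (N0 + i))) • LinearMap.proj i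
    have hk := LinearMap.ker_ne_bot_of_finrank_lt (f := f) (by
      have : U.card ≤ Z.card := Finset.card_filter_le _ _
      simp only [Module.finrank_fintype_fun_eq_card, Fintype.card_coe, Fintype.card_fin]
      rw [Finset.card_sdiff_of_subset (show U ⊆ Z from Finset.filter_subset _ _)]
      omega)
    obtain ⟨a, ha, ha0⟩ := Submodule.exists_mem_ne_zero_of_ne_bot hk
    set p : ℂ[X] := ∑ i : Fin (N + 1 - N0), C (a i) * (recPoly b (N0 + i)).map (algebraMap ℝ ℂ)
      with hp
    set p' : ℂ[X] := ∑ i : Fin (N + 1 - N0),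
      C (conj (a i)) * (recPoly b (N0 + i)).map (algebraMap ℝ ℂ) with hp'
    have hdeg : ∀ c : Fin (N + 1 - N0) → ℂ, (∑ i : Fin (N + 1 - N0),
        C (c i) * (recPoly b (N0 + i)).map (algebraMap ℝ ℂ)).natDegree ≤ N := by
      intro c
      refine natDegree_sum_le_of_forall_le _ _ fun i _ => (natDegree_C_mul_le _ _).trans ?_
      rw [(recPoly_monic b _).natDegree_map, recPoly_natDegree]
      have := i.2
      omega
    have hz : ∀ z ∈ Z, z ∉ U → p.eval z = 0 := by
      intro z h1 h2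
      have := congrFun (LinearMap.mem_ker.mp ha) ⟨z, Finset.mem_sdiff.mpr ⟨h1, h2⟩⟩
      simp only [f, LinearMap.pi_apply, LinearMap.sum_apply, LinearMap.smul_apply,
        LinearMap.proj_apply, smul_eq_mul, Pi.zero_apply] at this
      rw [hp, eval_finsetSum, ← this]
      exact Finset.sum_congr rfl fun i _ => by rw [eval_mul, eval_C, eval_map_algebraMap, mul_comm]
    have hc' : ∀ z, p'.eval z = conj (p.eval (conj z)) := by
      intro z
      rw [hp, hp', eval_finsetSum, eval_finsetSum, map_sum]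
      refine Finset.sum_congr rfl fun i _ => ?_
      rw [eval_mul, eval_mul, eval_C, eval_C, eval_map_algebraMap, eval_map_algebraMap, aeval_conj,
        map_mul, Complex.conj_conj]
    have e1 : LC L (p * p') = ∑ i : Fin (N + 1 - N0),
        ((Complex.normSq (a i) * hh b (N0 + i) : ℝ) : ℂ) := by
      rw [hp, hp', Finset.sum_mul_sum, map_sum]
      refine Finset.sum_congr rfl fun i _ => ?_
      rw [map_sum]
      have : ∀ j : Fin (N + 1 - N0), LC L (C (a i) * (recPoly b (N0 + i)).map (algebraMap ℝ ℂ) *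
          (C (conj (a j)) * (recPoly b (N0 + j)).map (algebraMap ℝ ℂ)))
          = if j = i then a i * conj (a j) * (hh b (N0 + i) : ℝ) else 0 := by
        intro j
        have e : C (a i) * (recPoly b (N0 + i)).map (algebraMap ℝ ℂ) *
            (C (conj (a j)) * (recPoly b (N0 + j)).map (algebraMap ℝ ℂ))
            = C (a i * conj (a j)) * (X ^ 0 * recPoly b (N0 + i) * recPoly b (N0 + j)).map
              (algebraMap ℝ ℂ) := by
          rw [pow_zero, one_mul, Polynomial.map_mul, map_mul]; ring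
        have e0 := h.AA_zero (N0 + j) (N0 + i)
        rw [AA] at e0
        rw [e, LC_C_mul, LC_map, e0]
        by_cases hj : j = i
        · simp [hj]
        · rw [if_neg hj, if_neg (fun h' => hj (Fin.ext (by omega)))]; simp
      simp only [this, Finset.sum_ite_eq', Finset.mem_univ, if_true]
      rw [Complex.mul_conj]; push_cast; ring
    have e2 := hq (p * p') (natDegree_mul_le.trans (by
      have a1 : p.natDegree ≤ N := hdeg a
      have a2 : p'.natDegree ≤ N := hdeg fun i => conj (a i)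
      omega))
    have e3 : 0 < (s * LC L (p * p')).re := by
      rw [e1, ← Complex.ofReal_sum, ← Complex.ofReal_mul, Complex.ofReal_re, Finset.mul_sum]
      obtain ⟨i, hi⟩ := Function.ne_iff.mp ha0
      refine Finset.sum_pos' (fun j _ => ?_) ⟨i, Finset.mem_univ _, ?_⟩
      · rw [mul_left_comm]
        exact mul_nonneg (Complex.normSq_nonneg _) (hs _ (by omega)).le
      · rw [mul_left_comm]
        exact mul_pos (Complex.normSq_pos.mpr hi) (hs _ (by omega))
    have e4 : (s * LC L (p * p')).re ≤ 0 := by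
      rw [e2, Finset.mul_sum, Complex.re_sum]
      refine Finset.sum_nonpos fun z hzZ => ?_
      rw [eval_mul, hc']
      by_cases hzU : z ∈ U
      · rcases (Finset.mem_filter.mp hzU).2 with h1 | ⟨h1, h2⟩
        · rw [hz (conj z) (hconj z hzZ) (fun h' => by
            rcases (Finset.mem_filter.mp h').2 with h2 | ⟨h2, -⟩ <;>
              rw [Complex.conj_im] at h2 <;> linarith)]
          simp
        · rw [Complex.conj_eq_iff_im.mpr h1, Complex.mul_conj, ← mul_assoc, Complex.re_mul_ofReal]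
          exact mul_nonpos_of_nonpos_of_nonneg h2.le (Complex.normSq_nonneg _)
      · rw [hz z hzZ hzU]; simp
    linarith
  set Q : ℝ[X] := ∏ u ∈ U, ((X - C u.re) ^ 2 + C (u.im ^ 2)) with hQ
  have hmon : ∀ u : ℂ, ((X - C u.re) ^ 2 + C (u.im ^ 2) : ℝ[X]).Monic := fun u => by
    monicity!
  have hQd : Q.natDegree ≤ 2 * N0 := by
    refine (natDegree_prod_le _ _).trans ?_
    have : ∑ u ∈ U, ((X - C u.re) ^ 2 + C (u.im ^ 2) : ℝ[X]).natDegree ≤ ∑ _u ∈ U, 2 :=
      Finset.sum_le_sum fun u _ => by compute_degree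
    rw [Finset.sum_const, smul_eq_mul] at this
    omega
  have hQ0 : ∀ y, 0 ≤ Q.eval y := by
    intro y
    rw [hQ, eval_prod]
    exact Finset.prod_nonneg fun u _ => by
      simp only [eval_add, eval_pow, eval_sub, eval_X, eval_C]; positivity
  have hQz : ∀ u ∈ U, aeval u Q = 0 ∧ aeval (conj u) Q = 0 := by
    intro u hu
    have : aeval u Q = 0 := by
      rw [hQ, map_prod]
      refine Finset.prod_eq_zero hu ?_
      simp only [map_add, map_pow, map_sub, aeval_X, aeval_C, Complex.coe_algebraMap]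
      have : u - (u.re : ℂ) = u.im * Complex.I := by
        linear_combination -(Complex.re_add_im u)
      rw [this, mul_pow, Complex.I_sq]; ring
    exact ⟨this, by rw [aeval_conj, this, map_zero]⟩
  refine ⟨Q, (monic_prod_of_monic _ _ fun u _ => hmon u).ne_zero, hQd, hQ0, fun p hp => ?_⟩
  have e2 := hq ((Q * (p * p)).map (algebraMap ℝ ℂ)) (natDegree_map_le.trans
    (natDegree_mul_le.trans (by have := natDegree_mul_le (p := p) (q := p); omega)))
  rw [LC_map] at e2
  have e3 : s * L (Q * (p * p)) = ((s : ℂ) * (L (Q * (p * p)) : ℝ)).re := by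
    rw [← Complex.ofReal_mul, Complex.ofReal_re]
  rw [e3, e2, Finset.mul_sum, Complex.re_sum]
  refine Finset.sum_nonneg fun z hz => ?_
  rw [eval_map_algebraMap, map_mul]
  by_cases hzU : z ∈ U
  · rw [(hQz z hzU).1]; simp
  rcases lt_trichotomy z.im 0 with h1 | h1 | h1
  · have : conj z ∈ U := Finset.mem_filter.mpr ⟨hconj z hz, Or.inl (by
      rw [Complex.conj_im]; linarith)⟩
    have h2 := (hQz _ this).2
    rw [Complex.conj_conj] at h2
    rw [h2]; simp
  · have h2 : 0 ≤ (s * lam z).re := by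
      by_contra h'
      exact hzU (Finset.mem_filter.mpr ⟨hz, Or.inr ⟨h1, not_le.mp h'⟩⟩)
    have h3 : z = algebraMap ℝ ℂ z.re := Complex.ext rfl (by simpa using h1)
    rw [← map_mul, h3, aeval_algebraMap_apply, ← h3, coe_aeval_eq_eval, Complex.coe_algebraMap,
      ← mul_assoc, Complex.re_mul_ofReal, eval_mul, eval_mul]
    exact mul_nonneg h2 (mul_nonneg (hQ0 _) (mul_self_nonneg _))
  · exact absurd (Finset.mem_filter.mpr ⟨hz, Or.inl h1⟩) hzU

theorem exists_Q (h : Orth L b) (hb : ∀ n, 1 ≤ n → b n ≠ 0) {s : ℝ} {N0 : ℕ}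
    (hs : ∀ n, N0 ≤ n → 0 < s * hh b n) :
    ∃ Q : ℝ[X], Q ≠ 0 ∧ (∀ y, 0 ≤ Q.eval y) ∧ ∀ p : ℝ[X], 0 ≤ s * L (Q * (p * p)) := by
  choose Q hQ0 hQd hQp hQL using fun N => level h hb hs (N + N0 + 1) (by omega) (by omega)
  let c : ℕ → Fin (2 * N0 + 1) → ℝ := fun N i => (Q N).coeff i
  have hrep : ∀ N, Q N = ∑ i : Fin (2 * N0 + 1), C (c N i) * X ^ (i : ℕ) := by
    intro N
    conv_lhs => rw [(Q N).as_sum_range_C_mul_X_pow' (n := 2 * N0 + 1) (by have := hQd N; omega)]
    exact (Fin.sum_univ_eq_sum_range (fun i => C ((Q N).coeff i) * X ^ i) _).symm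
  have hc0 : ∀ N, c N ≠ 0 := by
    intro N h0
    apply hQ0 N
    rw [hrep N, h0]
    simp
  let v : ℕ → Fin (2 * N0 + 1) → ℝ := fun N => ‖c N‖⁻¹ • c N
  have hv : ∀ N, v N ∈ Metric.sphere (0 : Fin (2 * N0 + 1) → ℝ) 1 := by
    intro N
    rw [mem_sphere_zero_iff_norm, norm_smul, norm_inv, norm_norm,
      inv_mul_cancel₀ (norm_ne_zero_iff.mpr (hc0 N))]
  obtain ⟨u, hu, φ, hφ, hlim⟩ := (isCompact_sphere _ _).tendsto_subseq hv
  have key : ∀ T : ℝ[X] →ₗ[ℝ] ℝ, (∀ᶠ N in atTop, 0 ≤ T (Q N)) →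
      0 ≤ T (∑ i : Fin (2 * N0 + 1), C (u i) * X ^ (i : ℕ)) := by
    intro T hT
    have h1 : Tendsto (fun N => ∑ i : Fin (2 * N0 + 1), v (φ N) i * T (X ^ (i : ℕ))) atTop
        (𝓝 (∑ i : Fin (2 * N0 + 1), u i * T (X ^ (i : ℕ)))) :=
      tendsto_finsetSum _ fun i _ => ((continuous_apply i).tendsto u |>.comp hlim).mul_const _
    simp only [map_sum, L_C_mul]
    refine ge_of_tendsto h1 ?_
    filter_upwards [hφ.tendsto_atTop.eventually hT] with N hN
    rw [hrep, map_sum] at hN
    simp only [L_C_mul] at hN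
    simp only [v, Pi.smul_apply, smul_eq_mul, mul_assoc, ← Finset.mul_sum]
    exact mul_nonneg (by positivity) hN
  refine ⟨∑ i : Fin (2 * N0 + 1), C (u i) * X ^ (i : ℕ), fun h0 => ?_, fun y => ?_, fun p => ?_⟩
  · have : u = 0 := by
      funext i
      have := congrArg (fun p : ℝ[X] => p.coeff i) h0
      simp only [finsetSum_coeff, coeff_C_mul, coeff_X_pow, mul_ite, mul_one, mul_zero,
        coeff_zero, Fin.val_inj, Finset.sum_ite_eq, Finset.mem_univ, if_true] at this
      exact this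
    rw [this] at hu
    simp at hu
  · exact key (Polynomial.leval y) (Eventually.of_forall fun N => hQp N y)
  · refine key (s • L ∘ₗ LinearMap.mulRight ℝ (p * p)) ?_
    filter_upwards [eventually_ge_atTop p.natDegree] with N hN
    exact hQL N p (by omega)

end Pool.Agent.Lib.MP_d042fc_an.Osc
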