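import Pool.Agent.Lib.MP_d042fc_an.OscA

/-!
# A first order identity for polynomials passes to test functions
-/

namespace Pool.Agent.Lib.MP_d042fc_an.Osc

open Polynomial Filter Topology MeasureTheory
open scoped FourierTransform SchwartzMap ContDiff

/-- the data of a first order identity with a moment bound -/
structure Data (M : ℝ[X] →ₗ[ℝ] ℝ) (A B r : ℝ[X]) (e : ℕ) : Prop where
  eq : ∀ p, M (A * derivative p + B * p) = 0
  dA : A.natDegree ≤ e
  dB : B.natDegree ≤ e
  dr : r.natDegree ≤ e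
  bound : ∀ y, |A.eval y| + |B.eval y| * |y| ≤ r.eval y
  mom : ∃ (a : ℝ) (g : ℕ), 1 ≤ a ∧ ∀ j, |M (X ^ (2 * j) * r)| ≤ a ^ (j + g + 1) * (j + g).factorial

variable {M : ℝ[X] →ₗ[ℝ] ℝ} {A B r : ℝ[X]} {e : ℕ}

section
variable {N : ℕ} {w x : Fin (N + 1) → ℝ}

lemma pearson2 (q : Quad M N w x) (D : Data M A B r e) (k : ℕ) (hk : k + e ≤ N) :
    ∑ j, w j * (A.eval (x j) * (k * x j ^ (k - 1)) + B.eval (x j) * x j ^ k) = 0 := by
  have h0 := D.eq (X ^ k)
  rw [← q.exact] at h0
  · rw [← h0]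
    refine Finset.sum_congr rfl fun j _ => ?_
    simp [derivative_X_pow]
  · refine (natDegree_add_le _ _).trans (max_le ?_ ?_)
    · refine natDegree_mul_le.trans ?_
      have := natDegree_derivative_le ((X : ℝ[X]) ^ k)
      have := D.dA
      rw [natDegree_X_pow] at *; omega
    · refine natDegree_mul_le.trans ?_
      have := D.dB
      rw [natDegree_X_pow]; omega

/-- the defect of the identity on an exponential -/
noncomputable def EE2 (A B : ℝ[X]) {N : ℕ} (w x : Fin (N + 1) → ℝ) (ξ : ℝ) : ℂ :=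
  ∑ j, (w j : ℂ) * (((A.eval (x j) : ℝ) * (ξ * Complex.I) + (B.eval (x j) : ℝ))
    * Complex.exp ((ξ * x j : ℝ) * Complex.I))

lemma taylor_zero2 (q : Quad M N w x) (D : Data M A B r e) (K : ℕ) (hK : K + e ≤ N) (ξ : ℝ) :
    ∑ j, (w j : ℂ) * ((A.eval (x j) : ℝ) * (ξ * Complex.I *
      ∑ k ∈ Finset.range K, (((ξ * x j : ℝ) : ℂ) * Complex.I) ^ k / (k.factorial : ℂ))
      + (B.eval (x j) : ℝ) *
      ∑ k ∈ Finset.range (K + 1), (((ξ * x j : ℝ) : ℂ) * Complex.I) ^ k / (k.factorial : ℂ)) = 0 := by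
  have e : ∀ j, (w j : ℂ) * ((A.eval (x j) : ℝ) * (ξ * Complex.I *
      ∑ k ∈ Finset.range K, (((ξ * x j : ℝ) : ℂ) * Complex.I) ^ k / (k.factorial : ℂ))
      + (B.eval (x j) : ℝ) *
      ∑ k ∈ Finset.range (K + 1), (((ξ * x j : ℝ) : ℂ) * Complex.I) ^ k / (k.factorial : ℂ)) =
      ∑ k ∈ Finset.range (K + 1), (ξ * Complex.I) ^ k / (k.factorial : ℂ) *
        ((w j * (A.eval (x j) * (k * x j ^ (k - 1)) + B.eval (x j) * x j ^ k) : ℝ) : ℂ) := by
    intro j
    have e1 : (ξ * Complex.I *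
      ∑ k ∈ Finset.range K, (((ξ * x j : ℝ) : ℂ) * Complex.I) ^ k / (k.factorial : ℂ)) =
      ∑ k ∈ Finset.range (K + 1), (ξ * Complex.I) ^ k / (k.factorial : ℂ) *
        ((k * x j ^ (k - 1) : ℝ) : ℂ) := by
      rw [Finset.sum_range_succ', Finset.mul_sum]
      simp only [Nat.cast_zero, zero_mul, Complex.ofReal_zero, mul_zero, add_zero]
      refine Finset.sum_congr rfl fun k _ => ?_
      have hk : ((k.factorial : ℕ) : ℂ) ≠ 0 := by exact_mod_cast k.factorial_ne_zero
      have hk1 : ((k : ℂ) + 1) ≠ 0 := by exact_mod_cast k.succ_ne_zero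
      rw [Nat.factorial_succ]
      push_cast
      field_simp
      ring
    rw [e1, Finset.mul_sum, Finset.mul_sum, ← Finset.sum_add_distrib, Finset.mul_sum]
    refine Finset.sum_congr rfl fun k _ => ?_
    push_cast
    ring
  simp only [e]
  rw [Finset.sum_comm]
  refine Finset.sum_eq_zero fun k hk => ?_
  rw [← Finset.mul_sum, ← Complex.ofReal_sum,
    pearson2 q D k (by have := Finset.mem_range.mp hk; omega)]
  simp

lemma norm_EE2_le (q : Quad M N w x) (D : Data M A B r e) (m : ℕ) (hm : 2 * m + e ≤ N)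
    (ξ : ℝ) : ‖EE2 A B w x ξ‖ ≤ |ξ| ^ (2 * m + 1) / (2 * m).factorial * M (X ^ (2 * m) * r) := by
  have h0 := taylor_zero2 q D (2 * m) hm ξ
  rw [← sub_zero (EE2 A B w x ξ), ← h0, EE2, ← Finset.sum_sub_distrib,
    ← q.exact _ (natDegree_mul_le.trans (by have := D.dr; rw [natDegree_X_pow]; omega)),
    Finset.mul_sum]
  refine (norm_sum_le _ _).trans (Finset.sum_le_sum fun j _ => ?_)
  set E := Complex.exp ((ξ * x j : ℝ) * Complex.I)
  set T1 := ∑ k ∈ Finset.range (2 * m), (((ξ * x j : ℝ) : ℂ) * Complex.I) ^ k / (k.factorial : ℂ)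
  set T2 := ∑ k ∈ Finset.range (2 * m + 1),
    (((ξ * x j : ℝ) : ℂ) * Complex.I) ^ k / (k.factorial : ℂ)
  have h1 : ‖E - T1‖ ≤ |ξ * x j| ^ (2 * m) / (2 * m).factorial := taylor_bound _ _
  have h2 : ‖E - T2‖ ≤ |ξ * x j| ^ (2 * m + 1) / (2 * m + 1).factorial := taylor_bound _ _
  have hfac : ((2 * m).factorial : ℝ) ≤ (2 * m + 1).factorial := by
    exact_mod_cast Nat.factorial_le (by omega)
  have hfp : (0 : ℝ) < (2 * m).factorial := by exact_mod_cast Nat.factorial_pos _
  have h2' : ‖E - T2‖ ≤ |ξ * x j| ^ (2 * m + 1) / (2 * m).factorial :=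
    h2.trans (div_le_div_of_nonneg_left (by positivity) hfp hfac)
  have ee : (w j : ℂ) * (((A.eval (x j) : ℝ) * (ξ * Complex.I) + (B.eval (x j) : ℝ)) * E) -
      (w j : ℂ) * ((A.eval (x j) : ℝ) * (ξ * Complex.I * T1) + (B.eval (x j) : ℝ) * T2) =
      (w j : ℂ) * ((A.eval (x j) : ℝ) * (ξ * Complex.I * (E - T1))
        + (B.eval (x j) : ℝ) * (E - T2)) := by ring
  rw [ee, norm_mul, Complex.norm_real, Real.norm_eq_abs, abs_of_nonneg (q.nonneg j)]
  have hx : |x j| ^ (2 * m) = x j ^ (2 * m) := by rw [pow_mul, pow_mul, sq_abs]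
  have hx0 : 0 ≤ x j ^ (2 * m) := by rw [← hx]; positivity
  have h3 : ‖(A.eval (x j) : ℝ) * (ξ * Complex.I * (E - T1)) + (B.eval (x j) : ℝ) * (E - T2)‖ ≤
      |ξ| ^ (2 * m + 1) / (2 * m).factorial * (x j ^ (2 * m) *
        (|A.eval (x j)| + |B.eval (x j)| * |x j|)) := by
    refine (norm_add_le _ _).trans ?_
    rw [norm_mul, norm_mul, norm_mul, norm_mul, Complex.norm_I, Complex.norm_real,
      Complex.norm_real, Complex.norm_real, Real.norm_eq_abs, Real.norm_eq_abs, Real.norm_eq_abs,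
      mul_one, mul_add, mul_add]
    refine add_le_add ?_ ?_
    · calc _ ≤ |A.eval (x j)| * (|ξ| * (|ξ * x j| ^ (2 * m) / (2 * m).factorial)) := by gcongr
        _ = _ := by rw [abs_mul, mul_pow, hx]; ring
    · calc _ ≤ |B.eval (x j)| * (|ξ * x j| ^ (2 * m + 1) / (2 * m).factorial) := by gcongr
        _ = _ := by rw [abs_mul, mul_pow, pow_succ |x j|, hx]; ring
  calc _ ≤ w j * (|ξ| ^ (2 * m + 1) / (2 * m).factorial * (x j ^ (2 * m) * r.eval (x j))) := by
        refine mul_le_mul_of_nonneg_left (h3.trans ?_) (q.nonneg j)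
        have := D.bound (x j)
        gcongr
    _ = _ := by simp only [eval_mul, eval_pow, eval_X]; ring

end

variable {w x : ∀ N : ℕ, Fin (N + 1) → ℝ}

lemma tendsto_remainder2 (D : Data M A B r e) (ξ : ℝ) :
    Tendsto (fun m : ℕ => |ξ| ^ (2 * m + 1) / (2 * m).factorial * M (X ^ (2 * m) * r))
      atTop (𝓝 0) := by
  obtain ⟨a, g, ha1, ha⟩ := D.mom
  rw [← tendsto_add_atTop_iff_nat g]
  have h0 := (FloorSemiring.tendsto_pow_div_factorial_atTop (|ξ| ^ 2 * a)).const_mul
    (|ξ| ^ (2 * g + 1) * a ^ (2 * g + 1))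
  rw [mul_zero] at h0
  refine squeeze_zero_norm (fun m => ?_) h0
  have hS := ha (m + g)
  have hfac : ((m + g + g).factorial : ℝ) * m.factorial ≤ (2 * (m + g)).factorial := by
    have := Nat.le_of_dvd (Nat.factorial_pos _)
      (Nat.factorial_mul_factorial_dvd_factorial_add (m + g + g) m)
    rw [show m + g + g + m = 2 * (m + g) by ring] at this
    exact_mod_cast this
  have hM : (0 : ℝ) < m.factorial := by exact_mod_cast Nat.factorial_pos _
  have hM6 : (0 : ℝ) < (m + g + g).factorial := by exact_mod_cast Nat.factorial_pos _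
  rw [Real.norm_eq_abs, abs_mul, abs_of_nonneg (by positivity)]
  calc _ ≤ |ξ| ^ (2 * (m + g) + 1) / (((m + g + g).factorial : ℝ) * m.factorial) *
        (a ^ (m + g + g + 1) * (m + g + g).factorial) := by gcongr
    _ = _ := by field_simp; ring

lemma tendsto_EE2 (q : ∀ N, Quad M N (w N) (x N)) (D : Data M A B r e) (ξ : ℝ) :
    Tendsto (fun N => EE2 A B (w N) (x N) ξ) atTop (𝓝 0) := by
  rw [NormedAddGroup.tendsto_nhds_zero]
  intro ε hε
  obtain ⟨m, hm⟩ := ((tendsto_remainder2 D ξ).eventually (gt_mem_nhds hε)).exists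
  filter_upwards [eventually_ge_atTop (2 * m + e)] with N hN
  exact (norm_EE2_le (q N) D m hN ξ).trans_lt hm

lemma continuous_EE2 (A B : ℝ[X]) {N : ℕ} (w x : Fin (N + 1) → ℝ) : Continuous (EE2 A B w x) := by
  unfold EE2; fun_prop

lemma tendsto_test2 (q : ∀ N, Quad M N (w N) (x N)) (D : Data M A B r e) {h h' : ℝ → ℝ}
    (hs : ContDiff ℝ ∞ h) (hc : HasCompactSupport h) (hd : ∀ y, HasDerivAt h (h' y) y) :
    Tendsto (fun N => ∑ j, w N j * (A.eval (x N j) * h' (x N j) + B.eval (x N j) * h (x N j)))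
      atTop (𝓝 0) := by
  have hs' : ContDiff ℝ ∞ fun y => (h y : ℂ) := Complex.ofRealCLM.contDiff.comp hs
  have hc' : HasCompactSupport fun y => (h y : ℂ) := hc.comp_left (g := fun r : ℝ => (r : ℂ)) (by simp)
  let H : 𝓢(ℝ, ℂ) := hc'.toSchwartzMap hs'
  let G : 𝓢(ℝ, ℂ) := 𝓕⁻ H
  have hHG : (fun y => (h y : ℂ)) = 𝓕 (G : ℝ → ℂ) := by
    rw [← SchwartzMap.fourier_coe, FourierTransform.fourier_fourierInv_eq]; rfl
  have hG1 : Integrable (G : ℝ → ℂ) := G.integrable
  have hG2 : Integrable fun ξ : ℝ => ‖ξ‖ * ‖G ξ‖ := by simpa using G.integrable_pow_mul volume 1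
  have hG3 : Integrable fun ξ : ℝ => ξ • G ξ := by
    refine hG2.mono' ?_ (Eventually.of_forall fun ξ => by rw [norm_smul])
    exact (continuous_id.smul G.continuous).aestronglyMeasurable
  have hder : ∀ y, (h' y : ℂ) = 𝓕 (fun ξ : ℝ => (-2 * Real.pi * Complex.I * ξ) • G ξ) y := by
    intro y
    have h1 := Real.hasDerivAt_fourier hG1 hG3 y
    rw [← hHG] at h1
    exact (hd y).ofReal_comp.unique h1
  have hval : ∀ y, (h y : ℂ) = 𝓕 (G : ℝ → ℂ) y := fun y => congrFun hHG y
  have hint : ∀ y α β : ℝ, Integrable fun ξ : ℝ =>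
      (((α : ℂ) * ((-2 * Real.pi * ξ : ℝ) * Complex.I) + β) *
        Complex.exp (((-2 * Real.pi * ξ) * y : ℝ) * Complex.I)) * G ξ := by
    intro y α β
    refine ((hG2.const_mul (|α| * (2 * Real.pi))).add (hG1.norm.const_mul |β|)).mono' ?_
      (Eventually.of_forall fun ξ => ?_)
    · have := G.continuous
      exact Continuous.aestronglyMeasurable (by fun_prop)
    · rw [norm_mul, norm_mul, Complex.norm_exp_ofReal_mul_I, mul_one, Pi.add_apply,
        ← mul_assoc (|α| * (2 * Real.pi)), ← add_mul]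
      gcongr
      refine (norm_add_le _ _).trans (le_of_eq ?_)
      simp [abs_of_pos Real.pi_pos, mul_assoc]
  have hpt : ∀ y α β : ℝ, ((α * h' y + β * h y : ℝ) : ℂ) = ∫ ξ : ℝ,
      (((α : ℂ) * ((-2 * Real.pi * ξ : ℝ) * Complex.I) + β) *
        Complex.exp (((-2 * Real.pi * ξ) * y : ℝ) * Complex.I)) * G ξ := by
    intro y α β
    have i1 : Integrable fun ξ : ℝ => Complex.exp (((-2 * Real.pi * ξ * y : ℝ) : ℂ) * Complex.I) •
        G ξ := by
      refine hG1.norm.mono' ?_ (Eventually.of_forall fun ξ => ?_)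
      · have := G.continuous
        exact Continuous.aestronglyMeasurable (by fun_prop)
      · rw [norm_smul, Complex.norm_exp_ofReal_mul_I, one_mul]
    have i2 : Integrable fun ξ : ℝ => Complex.exp (((-2 * Real.pi * ξ * y : ℝ) : ℂ) * Complex.I) •
        ((-2 * Real.pi * Complex.I * ξ) • G ξ) := by
      refine (hG2.const_mul (2 * Real.pi)).mono' ?_ (Eventually.of_forall fun ξ => ?_)
      · have := G.continuous
        exact Continuous.aestronglyMeasurable (by fun_prop)
      · rw [norm_smul, Complex.norm_exp_ofReal_mul_I, one_mul, norm_smul]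
        simp [abs_of_pos Real.pi_pos, mul_assoc]
    push_cast
    rw [hder, hval, Real.fourier_real_eq_integral_exp_smul, Real.fourier_real_eq_integral_exp_smul,
      ← integral_const_mul, ← integral_const_mul, ← integral_add (i2.const_mul _) (i1.const_mul _)]
    refine integral_congr_ae (Eventually.of_forall fun ξ => ?_)
    simp only [smul_eq_mul]
    push_cast
    ring
  have hsum : ∀ N, ((∑ j, w N j * (A.eval (x N j) * h' (x N j) + B.eval (x N j) * h (x N j))
      : ℝ) : ℂ) = ∫ ξ : ℝ, EE2 A B (w N) (x N) (-2 * Real.pi * ξ) * G ξ := by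
    intro N
    rw [Complex.ofReal_sum]
    simp only [Complex.ofReal_mul (w N _), hpt, ← integral_const_mul]
    rw [← integral_finsetSum _ (fun j _ => (hint (x N j) _ _).const_mul _)]
    refine integral_congr_ae (Eventually.of_forall fun ξ => ?_)
    simp only [EE2, Finset.sum_mul, mul_assoc]
  have hlim : Tendsto (fun N => ∫ ξ : ℝ, EE2 A B (w N) (x N) (-2 * Real.pi * ξ) * G ξ) atTop
      (𝓝 (∫ _ξ : ℝ, (0 : ℂ))) := by
    set c : ℝ := M (X ^ (2 * 0) * r)
    refine tendsto_integral_filter_of_dominated_convergence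
      (fun ξ => (2 * Real.pi * c) * (‖ξ‖ * ‖G ξ‖)) (Eventually.of_forall fun N => ?_) ?_
      (hG2.const_mul _) (Eventually.of_forall fun ξ => ?_)
    · have := G.continuous
      have := continuous_EE2 A B (w N) (x N)
      exact Continuous.aestronglyMeasurable (by fun_prop)
    · filter_upwards [eventually_ge_atTop (2 * 0 + e)] with N hN
      refine Eventually.of_forall fun ξ => ?_
      have := norm_EE2_le (q N) D 0 hN (-2 * Real.pi * ξ)
      rw [norm_mul]
      calc _ ≤ (|-2 * Real.pi * ξ| ^ (2 * 0 + 1) / (2 * 0).factorial * c) * ‖G ξ‖ := by gcongr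
        _ = _ := by simp [abs_mul, abs_of_pos Real.pi_pos]; ring
    · simpa using (tendsto_EE2 q D (-2 * Real.pi * ξ)).mul_const (G ξ)
  rw [integral_zero] at hlim
  simp only [← hsum] at hlim
  have hre := (Complex.continuous_re.tendsto 0).comp hlim
  simpa only [Function.comp_def, Complex.ofReal_re, Complex.zero_re] using hre

/-- test functions supported to the right of the zeros of `Q` -/
lemma tendsto_right {τ t : ℝ} {Q : ℝ[X]} (q : ∀ N, Quad M N (w N) (x N))
    (D : Data M Q (2 * derivative Q - dV τ t * Q) r e) {R R' : ℝ}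
    (hQ : ∀ y, R ≤ y → Q.eval y ≠ 0) {g : ℝ → ℝ} (hs : ContDiff ℝ ∞ g)
    (hg : ∀ y, y ≤ R → g y = 0) (hg' : ∀ y, R' ≤ y → g y = 0)
    (h0 : ∫ y, g y * Q.eval y * weight τ t y = 0) :
    Tendsto (fun N => ∑ j, w N j * g (x N j)) atTop (𝓝 0) := by
  have hQs : ContDiff ℝ ∞ fun y => Q.eval y := by
    simpa only [coe_aeval_eq_eval] using Q.contDiff_aeval (𝕜 := ℝ) ∞
  have hgw : ContDiff ℝ ∞ fun y => g y * Q.eval y * weight τ t y :=
    (hs.mul hQs).mul (contDiff_weight τ t)
  let F : ℝ → ℝ := fun y => ∫ s in R..y, g s * Q.eval s * weight τ t s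
  have hF : ∀ y, HasDerivAt F (g y * Q.eval y * weight τ t y) y := fun y =>
    (hgw.continuous.integral_hasStrictDerivAt R y).hasDerivAt
  have hFs : ContDiff ℝ ∞ F := by
    rw [contDiff_infty_iff_deriv]
    refine ⟨fun y => (hF y).differentiableAt, ?_⟩
    have : deriv F = fun y => g y * Q.eval y * weight τ t y := funext fun y => (hF y).deriv
    rw [this]; exact hgw
  have hF0 : ∀ y, y ≤ R → F y = 0 := by
    intro y hy
    simp only [F]
    rw [← intervalIntegral.integral_zero (a := R) (b := y) (μ := volume)]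
    refine intervalIntegral.integral_congr fun s hs => ?_
    rw [Set.uIcc_of_ge hy] at hs
    simp [hg s hs.2]
  have hF1 : ∀ y, R' ≤ y → F y = 0 := by
    intro y hy
    rw [← h0]
    refine intervalIntegral.integral_eq_integral_of_support_subset fun s hs => ?_
    have a1 : ¬ s ≤ R := fun h => hs (by simp [hg s h])
    have a2 : ¬ R' ≤ s := fun h => hs (by simp [hg' s h])
    exact ⟨not_le.mp a1, by linarith [not_le.mp a2]⟩
  let h : ℝ → ℝ := fun y => F y / (Q.eval y ^ 2 * weight τ t y)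
  have hev : ∀ y, y < R → h =ᶠ[𝓝 y] fun _ => 0 := by
    intro y hy
    filter_upwards [gt_mem_nhds hy] with z hz
    simp [h, hF0 z hz.le]
  have hne : ∀ y, R ≤ y → Q.eval y ^ 2 * weight τ t y ≠ 0 := fun y hy =>
    mul_ne_zero (pow_ne_zero _ (hQ y hy)) (weight_pos τ t y).ne'
  have hhs : ContDiff ℝ ∞ h := by
    refine contDiff_iff_contDiffAt.mpr fun y => ?_
    rcases lt_or_ge y R with hy | hy
    · exact contDiffAt_const.congr_of_eventuallyEq (hev y hy)
    · exact hFs.contDiffAt.div ((hQs.pow 2).mul (contDiff_weight τ t)).contDiffAt (hne y hy)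
  have hhc : HasCompactSupport h := by
    refine HasCompactSupport.intro (isCompact_Icc (a := R) (b := R')) fun y hy => ?_
    rw [Set.mem_Icc, not_and_or, not_le, not_le] at hy
    rcases hy with hy | hy
    · simp [h, hF0 y hy.le]
    · simp [h, hF1 y hy.le]
  have hhd : ∀ y, HasDerivAt h (deriv h y) y := fun y =>
    (hhs.differentiable (by simp) y).hasDerivAt
  have hid : ∀ y, Q.eval y * deriv h y + (2 * derivative Q - dV τ t * Q).eval y * h y = g y := by
    intro y
    rcases lt_or_ge y R with hy | hy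
    · rw [(hev y hy).deriv_eq, (hev y hy).self_of_nhds, hg y hy.le]; simp
    · have h1 := (hF y).div (((Q.hasDerivAt y).pow 2).mul (hasDerivAt_weight τ t y)) (hne y hy)
      have h2 : deriv h y = _ := h1.deriv
      have a1 := hQ y hy
      have a2 := (weight_pos τ t y).ne'
      rw [h2]
      simp only [h, eval_sub, eval_mul, eval_dV, eval_ofNat, Pi.mul_apply, Pi.pow_apply]
      field_simp
      ring
  simpa only [hid] using tendsto_test2 q D hhs hhc hhd

end Pool.Agent.Lib.MP_d042fc_an.Osc
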