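import Pool.Agent.Lib.MP_d042fc_an.OscB

/-!
# Eventually positive solutions of the string equation are positive
-/

namespace Pool.Agent.Lib.MP_d042fc_an.Osc

open Polynomial Filter Topology MeasureTheory
open scoped ContDiff

variable {L : ℝ[X] →ₗ[ℝ] ℝ} {b : ℕ → ℝ} {τ t : ℝ}

lemma symm_comp (hodd : ∀ k, Odd k → L (X ^ k) = 0) (p : ℝ[X]) : L (p.comp (-X)) = L p := by
  induction p using Polynomial.induction_on' with
  | add p q hp hq => rw [add_comp, map_add, map_add, hp, hq]
  | monomial k a =>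
    rw [monomial_comp, ← C_mul_X_pow_eq_monomial, L_C_mul, L_C_mul]
    rcases Nat.even_or_odd k with h | h
    · rw [h.neg_pow]
    · rw [h.neg_pow, map_neg, hodd k h, neg_zero]

lemma mom_poly (hp : pear τ t L = 0) (hodd : ∀ k, Odd k → L (X ^ k) = 0) (r : ℝ[X]) :
    ∃ (a : ℝ) (g : ℕ), 1 ≤ a ∧ ∀ j, |L (X ^ (2 * j) * r)| ≤ a ^ (j + g + 1) * (j + g).factorial := by
  have mono : ∀ {a a' : ℝ} {m m' : ℕ}, 1 ≤ a → a ≤ a' → m ≤ m' →
      a ^ (m + 1) * (m.factorial : ℝ) ≤ a' ^ (m' + 1) * m'.factorial := by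
    intro a a' m m' h1 h2 h3
    have h4 : (m.factorial : ℝ) ≤ m'.factorial := by exact_mod_cast Nat.factorial_le h3
    have h5 : a ^ (m + 1) ≤ a' ^ (m' + 1) :=
      (pow_le_pow_left₀ (by linarith) h2 _).trans (pow_le_pow_right₀ (by linarith) (by omega))
    exact mul_le_mul h5 h4 (by positivity) ((pow_nonneg (by linarith) _).trans h5)
  induction r using Polynomial.induction_on' with
  | add p q hp hq =>
    obtain ⟨a, g, ha, h⟩ := hp
    obtain ⟨a', g', ha', h'⟩ := hq
    refine ⟨2 * (a + a'), g + g', by linarith, fun j => ?_⟩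
    rw [mul_add, map_add]
    have h1 := (h j).trans (mono (a' := a + a') (m' := j + (g + g')) ha (by linarith) (by omega))
    have h2 := (h' j).trans (mono (a' := a + a') (m' := j + (g + g')) ha' (by linarith) (by omega))
    have h3 : (2:ℝ) ≤ 2 ^ (j + (g + g') + 1) := le_self_pow₀ (by norm_num) (by omega)
    have h4 : 0 ≤ (a + a') ^ (j + (g + g') + 1) * ((j + (g + g')).factorial : ℝ) := by positivity
    rw [mul_pow, mul_assoc]
    refine (abs_add_le _ _).trans ?_
    nlinarith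
  | monomial k c =>
    obtain ⟨A, hA1, hA⟩ := moment_bound hp
    have hc := abs_nonneg c
    refine ⟨(|c| + 1) * A, k, by nlinarith, fun j => ?_⟩
    rw [← C_mul_X_pow_eq_monomial, mul_left_comm, L_C_mul, ← pow_add, abs_mul]
    obtain ⟨i, rfl | rfl⟩ := Nat.even_or_odd' k
    · rw [← mul_add, mul_pow, mul_assoc]
      refine mul_le_mul ?_ ((hA _).trans (mono hA1 le_rfl (by omega))) (abs_nonneg _)
        (by positivity)
      exact (by linarith : |c| ≤ |c| + 1).trans (le_self_pow₀ (by linarith) (by omega))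
    · rw [hodd _ ⟨j + i, by ring⟩, abs_zero, mul_zero]; positivity

lemma geom_growth {Q : ℝ[X]} (hQ : Q ≠ 0) {C ρ : ℝ} (hρ : 1 ≤ ρ)
    (h : ∀ k, |L (Q * X ^ k)| ≤ C * ρ ^ k) :
    ∃ C' σ : ℝ, 0 ≤ C' ∧ 1 ≤ σ ∧ ∀ k, |L (X ^ k)| ≤ C' * σ ^ k := by
  set d := Q.natDegree with hd
  have hl : 0 < |Q.coeff d| := abs_pos.mpr (leadingCoeff_ne_zero.mpr hQ)
  have hC : 0 ≤ C := by simpa using (abs_nonneg _).trans (h 0)
  set S := (∑ i ∈ Finset.range d, |Q.coeff i|) / |Q.coeff d| with hS
  have hS0 : 0 ≤ S := by positivity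
  set C' := C / |Q.coeff d| + ∑ i ∈ Finset.range d, |L (X ^ i)| with hC'
  have h1 : 0 ≤ C / |Q.coeff d| := by positivity
  have h2 : 0 ≤ ∑ i ∈ Finset.range d, |L (X ^ i)| := by positivity
  have hC0 : 0 ≤ C' := by positivity
  have hσ : 1 ≤ ρ + S := by linarith
  refine ⟨C', ρ + S, hC0, hσ, fun k => ?_⟩
  induction k using Nat.strong_induction_on with
  | _ k ih =>
    rcases lt_or_ge k d with hk | hk
    · have a1 : |L (X ^ k)| ≤ ∑ i ∈ Finset.range d, |L (X ^ i)| :=
        Finset.single_le_sum (f := fun i => |L (X ^ i)|) (fun _ _ => abs_nonneg _)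
          (Finset.mem_range.mpr hk)
      have a2 : 1 ≤ (ρ + S) ^ k := one_le_pow₀ hσ
      nlinarith
    · obtain ⟨m, rfl⟩ := Nat.exists_eq_add_of_le hk
      have e : L (Q * X ^ m) = ∑ i ∈ Finset.range d, Q.coeff i * L (X ^ (i + m))
          + Q.coeff d * L (X ^ (d + m)) := by
        conv_lhs => rw [Q.as_sum_range_C_mul_X_pow, Finset.sum_mul, map_sum]
        rw [← hd, Finset.sum_range_succ]
        simp only [mul_assoc, ← pow_add, L_C_mul]
      have a1 : |Q.coeff d| * |L (X ^ (d + m))|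
          ≤ C * ρ ^ m + ∑ i ∈ Finset.range d, |Q.coeff i| * (C' * (ρ + S) ^ (i + m)) := by
        rw [← abs_mul, show Q.coeff d * L (X ^ (d + m)) = L (Q * X ^ m)
          - ∑ i ∈ Finset.range d, Q.coeff i * L (X ^ (i + m)) by rw [e]; ring]
        refine (abs_sub _ _).trans (add_le_add (h m) ((Finset.abs_sum_le_sum_abs _ _).trans
          (Finset.sum_le_sum fun i hi => ?_)))
        rw [abs_mul]
        exact mul_le_mul_of_nonneg_left (ih _ (by have := Finset.mem_range.mp hi; omega))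
          (abs_nonneg _)
      have a2 : C ≤ |Q.coeff d| * C' := by
        have : |Q.coeff d| * (C / |Q.coeff d|) = C := by field_simp
        rw [hC', mul_add, this]
        linarith [mul_nonneg hl.le h2]
      refine le_of_mul_le_mul_left (a1.trans ?_) hl
      have a3 : ρ ^ m ≤ (ρ + S) ^ m := pow_le_pow_left₀ (by linarith) (by linarith) _
      rcases Nat.eq_zero_or_pos d with h0 | h0
      · have r0 : Finset.range d = ∅ := by rw [h0]; rfl
        have r1 : d + m = m := by omega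
        rw [r0, r1, Finset.sum_empty, add_zero, ← mul_assoc]
        exact mul_le_mul a2 a3 (by positivity) (by positivity)
      · obtain ⟨d', hd'⟩ : ∃ d', d = d' + 1 := ⟨d - 1, by omega⟩
        set P := (ρ + S) ^ (d' + m) with hP
        have a4 : ρ ^ m ≤ P := a3.trans (pow_le_pow_right₀ hσ (by omega))
        have a5 : ∑ i ∈ Finset.range d, |Q.coeff i| * (C' * (ρ + S) ^ (i + m))
            ≤ ∑ i ∈ Finset.range d, |Q.coeff i| * (C' * P) :=
          Finset.sum_le_sum fun i hi => mul_le_mul_of_nonneg_left (mul_le_mul_of_nonneg_left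
            (pow_le_pow_right₀ hσ (by have := Finset.mem_range.mp hi; omega)) hC0) (abs_nonneg _)
        have a6 : ∑ i ∈ Finset.range d, |Q.coeff i| = |Q.coeff d| * S := by
          rw [hS]; field_simp
        rw [← Finset.sum_mul, a6] at a5
        have a7 : (ρ + S) ^ (d + m) = P * (ρ + S) := by
          rw [hP, ← pow_succ]; congr 1; omega
        have hP0 : 0 ≤ P := by positivity
        have a8 : C * ρ ^ m ≤ |Q.coeff d| * C' * P :=
          mul_le_mul a2 a4 (by positivity) (by positivity)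
        have a9 : 0 ≤ |Q.coeff d| * C' * P := by positivity
        rw [a7]
        nlinarith

lemma geom_zero (hp : pear τ t L = 0) {C σ : ℝ} (hC : 0 ≤ C) (hσ : 1 ≤ σ)
    (h : ∀ k, |L (X ^ k)| ≤ C * σ ^ k) : L = 0 := by
  have hτ := abs_nonneg τ
  have ht := abs_nonneg t
  obtain ⟨K, hK⟩ := exists_nat_ge (2 * (6 * σ ^ 6 + 4 * |τ| * σ ^ 4 + 2 * |t| * σ ^ 2))
  have h1 : ∀ n : ℕ, ∀ k, K ≤ k → |L (X ^ k)| ≤ C * (1 / 2) ^ n * σ ^ k := by
    intro n
    induction n with
    | zero => intro k _; simpa using h k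
    | succ n ih =>
      intro k hk
      have e := pearson_moment hp k
      have a6 := ih (k + 6) (by omega)
      have a4 := ih (k + 4) (by omega)
      have a2 := ih (k + 2) (by omega)
      set T := C * (1 / 2) ^ n * σ ^ k with hT
      have hT0 : 0 ≤ T := by positivity
      have hk' : (K : ℝ) ≤ k := by exact_mod_cast hk
      have b1 : ((k : ℝ) + 1) * |L (X ^ k)|
          ≤ (6 * σ ^ 6 + 4 * |τ| * σ ^ 4 + 2 * |t| * σ ^ 2) * T := by
        have e2 : ((k : ℝ) + 1) * L (X ^ k) = 6 * L (X ^ (k + 6)) + (-4 * τ) * L (X ^ (k + 4))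
            + (-2 * t) * L (X ^ (k + 2)) := by linarith
        rw [← abs_of_nonneg (show (0:ℝ) ≤ k + 1 by positivity), ← abs_mul, e2]
        refine (abs_add_three _ _ _).trans ?_
        simp only [abs_mul, abs_neg, Nat.abs_ofNat]
        have c6 : C * (1 / 2) ^ n * σ ^ (k + 6) = σ ^ 6 * T := by rw [hT]; ring
        have c4 : C * (1 / 2) ^ n * σ ^ (k + 4) = σ ^ 4 * T := by rw [hT]; ring
        have c2 : C * (1 / 2) ^ n * σ ^ (k + 2) = σ ^ 2 * T := by rw [hT]; ring
        rw [c6] at a6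
        rw [c4] at a4
        rw [c2] at a2
        nlinarith [mul_le_mul_of_nonneg_left a4 hτ, mul_le_mul_of_nonneg_left a2 ht]
      have e3 : C * (1 / 2) ^ (n + 1) * σ ^ k = T / 2 := by rw [hT]; ring
      rw [e3]
      refine le_of_mul_le_mul_left (b1.trans ?_) (show (0:ℝ) < k + 1 by positivity)
      nlinarith
  have h2 : ∀ k, K ≤ k → L (X ^ k) = 0 := by
    intro k hk
    have hl := ((tendsto_pow_atTop_nhds_zero_of_lt_one (show (0:ℝ) ≤ 1 / 2 by norm_num)
      (by norm_num)).const_mul C).mul_const (σ ^ k)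
    rw [mul_zero, zero_mul] at hl
    exact abs_nonpos_iff.mp (ge_of_tendsto' hl fun n => h1 n k hk)
  have h3 : ∀ m k, K ≤ k + m → L (X ^ k) = 0 := by
    intro m
    induction m with
    | zero => exact h2
    | succ m ih =>
      intro k hk
      have e := pearson_moment hp k
      rw [ih (k + 6) (by omega), ih (k + 4) (by omega), ih (k + 2) (by omega)] at e
      have : ((k : ℝ) + 1) * L (X ^ k) = 0 := by linarith
      exact (mul_eq_zero.mp this).resolve_left (by positivity)
  ext1 k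
  ext
  simpa [monomial_one_right_eq_X_pow] using h3 K k (by omega)

lemma pear_zero (h : Orth L b) (hs : ∀ n, 1 ≤ n → StringEq τ t b n) : pear τ t L = 0 := by
  let Q : ℕ → ℝ[X] := fun k => recPoly b ((k + 1) / 2) * recPoly b (k / 2)
  have hQm : ∀ k, (Q k).Monic := fun k => (recPoly_monic _ _).mul (recPoly_monic _ _)
  have hQd : ∀ k, (Q k).degree = k := fun k => by
    rw [degree_eq_natDegree (hQm k).ne_zero, (recPoly_monic _ _).natDegree_mul (recPoly_monic _ _),
      recPoly_natDegree, recPoly_natDegree]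
    congr 1; omega
  let S : Polynomial.Sequence ℝ := ⟨Q, hQd⟩
  have hS : ∀ i, IsUnit (S i).leadingCoeff := fun i => by
    have : (S i).leadingCoeff = 1 := hQm i
    rw [this]; exact isUnit_one
  apply (S.basis hS).ext
  intro k
  rw [Sequence.basis_eq_self]
  change pear τ t L (Q k) = 0
  obtain ⟨n, rfl | rfl⟩ := Nat.even_or_odd' k
  · have h1 : (2 * n + 1) / 2 = n := by omega
    have h2 : (2 * n) / 2 = n := by omega
    simp only [Q, h1, h2]; exact h.pear_sq τ t n
  · have h1 : (2 * n + 1 + 1) / 2 = n + 1 := by omega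
    have h2 : (2 * n + 1) / 2 = n := by omega
    simp only [Q, h1, h2]
    have h3 := hs (n + 1) (by omega)
    unfold StringEq at h3
    simp only [Nat.add_sub_cancel, add_assoc] at h3
    rw [h.pear_adj, mul_eq_zero]
    right
    rw [sub_eq_zero, eq_comm]
    simpa only [Nat.add_sub_cancel, add_assoc] using h3

lemma L0_pos {r : ℝ[X]} (h0 : r ≠ 0) (hr : ∀ y, 0 ≤ r.eval y) : 0 < L0 τ t r := by
  rw [L0_apply]
  refine div_pos ?_ (moment_zero_pos τ t)
  obtain ⟨x, hx⟩ : ∃ x : ℝ, r.eval x ≠ 0 := by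
    by_contra h
    push Not at h
    exact h0 (Polynomial.funext (by simpa using h))
  refine integral_pos_of_integrable_nonneg_nonzero (x := x) ?_ (integrable_eval_mul_weight τ t _)
    (fun x => ?_) ?_
  · exact r.continuous.mul (continuous_weight τ t)
  · exact mul_nonneg (hr x) (weight_pos τ t x).le
  · exact mul_ne_zero hx (weight_pos τ t x).ne'

/-- the even moments of `M` are those of a multiple of `Q ω` up to a geometric error -/
lemma outer {M : ℝ[X] →ₗ[ℝ] ℝ} {Q r : ℝ[X]} {e : ℕ} {w x : ∀ N : ℕ, Fin (N + 1) → ℝ}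
    (q : ∀ N, Quad M N (w N) (x N)) (q' : ∀ N, Quad M N (w N) (fun j => -x N j))
    (D : Data M Q (2 * derivative Q - dV τ t * Q) r e) (h1 : M 1 = 1) (hQ0 : Q ≠ 0)
    (hQp : ∀ y, 0 ≤ Q.eval y) (hQe : ∀ y, Q.eval (-y) = Q.eval y) :
    ∃ c C ρ : ℝ, 1 ≤ ρ ∧ ∀ j, |M (X ^ (2 * j)) - c * L0 τ t (Q * X ^ (2 * j))| ≤ C * ρ ^ (2 * j) := by
  obtain ⟨R0, hR0⟩ := (finite_setOfPred_isRoot hQ0).bddAbove
  obtain ⟨R, hR⟩ := exists_nat_gt (max R0 0)
  have hRp : (0:ℝ) < R := (le_max_right _ _).trans_lt hR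
  have hQ : ∀ y, (R:ℝ) ≤ y → Q.eval y ≠ 0 := fun y hy h =>
    absurd (hR0 (show y ∈ {x | Q.IsRoot x} from h)) (by linarith [le_max_left R0 0])
  let χ : ℕ → ContDiffBump (0 : ℝ) := fun n => ⟨n + 1, n + 2, by positivity, by linarith⟩
  have hχ0 : ∀ n y, 0 ≤ χ n y := fun n y => (χ n).nonneg
  have hχ1 : ∀ n y, χ n y ≤ 1 := fun n y => (χ n).le_one
  have hχone : ∀ (n : ℕ) (y : ℝ), |y| ≤ n + 1 → χ n y = 1 := fun n y hy =>
    (χ n).one_of_mem_closedBall (by simpa using hy)
  have hχzero : ∀ (n : ℕ) (y : ℝ), (n : ℝ) + 2 ≤ |y| → χ n y = 0 := fun n y hy =>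
    (χ n).zero_of_le_dist (by simpa using hy)
  let ψ : ℝ → ℝ := fun y => Real.smoothTransition (y - R)
  have hψ0 : ∀ y : ℝ, y ≤ (R:ℝ) → ψ y = 0 := fun y hy =>
    Real.smoothTransition.zero_of_nonpos (by linarith)
  have hψ1 : ∀ y, (R:ℝ) + 1 ≤ y → ψ y = 1 := fun y hy =>
    Real.smoothTransition.one_of_one_le (by linarith)
  have hψn : ∀ y, 0 ≤ ψ y := fun y => Real.smoothTransition.nonneg _
  have hψl : ∀ y, ψ y ≤ 1 := fun y => Real.smoothTransition.le_one _
  let g : ℕ → ℕ → ℝ → ℝ := fun n j y => y ^ (2 * j) * (ψ y * χ n y)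
  have hgs : ∀ n j, ContDiff ℝ ∞ (g n j) := fun n j => (contDiff_id.pow _).mul
    ((Real.smoothTransition.contDiff.comp (contDiff_id.sub contDiff_const)).mul (χ n).contDiff)
  have hev : ∀ (j : ℕ) (y : ℝ), 0 ≤ y ^ (2 * j) := fun j y => by rw [pow_mul]; positivity
  have hg0 : ∀ n j y, 0 ≤ g n j y := fun n j y =>
    mul_nonneg (hev j y) (mul_nonneg (hψn y) (hχ0 n y))
  have hg1 : ∀ n j y, g n j y ≤ y ^ (2 * j) := fun n j y =>
    mul_le_of_le_one_right (hev j y) (mul_le_one₀ (hψl y) (hχ0 n y) (hχ1 n y))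
  have hpt : ∀ (n j : ℕ) (y : ℝ), |y ^ (2 * j) - (g n j y + g n j (-y))|
      ≤ (R + 1) ^ (2 * j) + y ^ (2 * j + 2) / (n + 1) := by
    intro n j y
    have e : y ^ (2 * j) - (g n j y + g n j (-y))
        = y ^ (2 * j) * (1 - (ψ y + ψ (-y)) * χ n y) := by
      simp only [g]
      rw [(even_two_mul j).neg_pow, (χ n).neg]; ring
    have hs1 : ψ y + ψ (-y) ≤ 1 := by
      rcases le_total y 0 with h | h
      · rw [hψ0 y (by linarith)]; linarith [hψl (-y)]
      · rw [hψ0 (-y) (by linarith)]; linarith [hψl y]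
    have hs0 : 0 ≤ ψ y + ψ (-y) := add_nonneg (hψn _) (hψn _)
    have a0 : 0 ≤ (ψ y + ψ (-y)) * χ n y := mul_nonneg hs0 (hχ0 n y)
    have a1 : (ψ y + ψ (-y)) * χ n y ≤ 1 := mul_le_one₀ hs1 (hχ0 n y) (hχ1 n y)
    have hn : (0 : ℝ) < n + 1 := by positivity
    have a2 : 0 ≤ y ^ (2 * j + 2) / (n + 1) := div_nonneg (hev (j + 1) y) hn.le
    have a3 : (0:ℝ) ≤ (R + 1) ^ (2 * j) := by positivity
    rw [e, abs_of_nonneg (mul_nonneg (hev j y) (by linarith))]
    rcases le_total |y| (R + 1) with h | h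
    · have : y ^ (2 * j) ≤ (R + 1) ^ (2 * j) := by
        rw [← (even_two_mul j).pow_abs]; exact pow_le_pow_left₀ (abs_nonneg _) h _
      nlinarith [hev j y]
    · have b1 : ψ y + ψ (-y) = 1 := by
        rcases le_abs.mp h with h' | h'
        · rw [hψ1 y h', hψ0 (-y) (by linarith)]; ring
        · rw [hψ1 (-y) h', hψ0 y (by linarith)]; ring
      have key : 1 - χ n y ≤ y ^ 2 / (n + 1) := by
        rcases le_total |y| (n + 1) with h | h
        · rw [hχone n y h]; simp; positivity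
        · have : (n + 1 : ℝ) ≤ y ^ 2 := by
            rw [← sq_abs]; have : (0 : ℝ) ≤ n := n.cast_nonneg; nlinarith
          have : 1 ≤ y ^ 2 / (n + 1) := by rwa [le_div_iff₀ hn, one_mul]
          linarith [hχ0 n y]
      rw [b1, one_mul]
      calc _ ≤ y ^ (2 * j) * (y ^ 2 / (n + 1)) := mul_le_mul_of_nonneg_left key (hev j y)
        _ = y ^ (2 * j + 2) / (n + 1) := by ring
        _ ≤ _ := by linarith
  have hpi : ∀ k : ℕ, Integrable fun y => y ^ k * (Q.eval y * weight τ t y) := by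
    intro k
    refine (integrable_eval_mul_weight τ t (X ^ k * Q)).congr (Eventually.of_forall fun y => ?_)
    simp only [eval_mul, eval_pow, eval_X]; ring
  have hQw : ∀ y, 0 ≤ Q.eval y * weight τ t y := fun y => mul_nonneg (hQp y) (weight_pos τ t y).le
  have hQc : Continuous fun y => Q.eval y * weight τ t y := Q.continuous.mul (continuous_weight τ t)
  have hint : ∀ n j, Integrable fun y => g n j y * (Q.eval y * weight τ t y) := by
    intro n j
    refine (hpi (2 * j)).mono' ((hgs n j).continuous.mul hQc).aestronglyMeasurable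
      (Eventually.of_forall fun y => ?_)
    rw [Real.norm_of_nonneg (mul_nonneg (hg0 n j y) (hQw y))]
    exact mul_le_mul_of_nonneg_right (hg1 n j y) (hQw y)
  set I : ℕ → ℕ → ℝ := fun n j => ∫ y, g n j y * (Q.eval y * weight τ t y) with hI
  have hI0 : 0 < I R 0 := by
    refine integral_pos_of_integrable_nonneg_nonzero (x := R + 1)
      ((hgs R 0).continuous.mul hQc) (hint R 0) (fun y => mul_nonneg (hg0 _ _ y) (hQw y)) ?_
    simp only [g]
    rw [hψ1 _ le_rfl, hχone R _ (by rw [abs_of_pos (by positivity)])]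
    simpa using ⟨hQ _ (by linarith), (weight_pos τ t _).ne'⟩
  let S : ℕ → (ℝ → ℝ) → ℝ := fun N f => ∑ i, w N i * (f (x N i) + f (-x N i))
  have hS : ∀ n j, Tendsto (fun N => S N (g n j) - I n j / I R 0 * S N (g R 0)) atTop (𝓝 0) := by
    intro n j
    have hs : ContDiff ℝ ∞ fun y => g n j y - I n j / I R 0 * g R 0 y :=
      (hgs n j).sub (contDiff_const.mul (hgs R 0))
    have a1 : ∀ y, y ≤ (R:ℝ) → g n j y - I n j / I R 0 * g R 0 y = 0 := fun y hy => by
      simp [g, hψ0 y hy]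
    have a2 : ∀ y, (n:ℝ) + R + 2 ≤ y → g n j y - I n j / I R 0 * g R 0 y = 0 := fun y hy => by
      have hn : (0:ℝ) ≤ n := n.cast_nonneg
      simp [g, hχzero n y ((by linarith : (n:ℝ) + 2 ≤ y).trans (le_abs_self y)),
        hχzero R y ((by linarith : (R:ℝ) + 2 ≤ y).trans (le_abs_self y))]
    have a3 : ∫ y, (g n j y - I n j / I R 0 * g R 0 y) * Q.eval y * weight τ t y = 0 := by
      simp only [mul_assoc, sub_mul]
      rw [integral_sub (hint n j) ((hint R 0).const_mul _), integral_const_mul]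
      change I n j - I n j / I R 0 * I R 0 = 0
      rw [div_mul_cancel₀ _ hI0.ne', sub_self]
    have := (tendsto_right q D hQ hs a1 a2 a3).add (tendsto_right q' D hQ hs a1 a2 a3)
    rw [add_zero] at this
    refine this.congr fun N => ?_
    simp only [S, Finset.mul_sum, ← Finset.sum_add_distrib, ← Finset.sum_sub_distrib]
    exact Finset.sum_congr rfl fun i _ => by ring
  have hw1 : ∀ N, ∑ i, w N i = 1 := fun N => by
    simpa [h1] using (q N).pow 0 (Nat.zero_le _)
  have hb : ∀ N, S N (g R 0) ∈ Set.Icc (0:ℝ) 2 := by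
    intro N
    refine ⟨Finset.sum_nonneg fun i _ => mul_nonneg ((q N).nonneg i)
      (add_nonneg (hg0 _ _ _) (hg0 _ _ _)), ?_⟩
    have : S N (g R 0) ≤ ∑ i, w N i * 2 := Finset.sum_le_sum fun i _ =>
      mul_le_mul_of_nonneg_left (by
        have a := hg1 R 0 (x N i)
        have b := hg1 R 0 (-x N i)
        rw [mul_zero, pow_zero] at a b
        linarith) ((q N).nonneg i)
    rwa [← Finset.sum_mul, hw1, one_mul] at this
  obtain ⟨a, -, φ, hφ, hlim⟩ := isCompact_Icc.tendsto_subseq hb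
  have hμ := moment_zero_pos τ t
  have hL0 : ∀ k, moment τ t 0 * L0 τ t (Q * X ^ k) = ∫ y, y ^ k * (Q.eval y * weight τ t y) := by
    intro k
    rw [L0_apply, mul_div_cancel₀ _ hμ.ne']
    refine integral_congr_ae (Eventually.of_forall fun y => ?_)
    simp only [eval_mul, eval_pow, eval_X]; ring
  set J : ℕ → ℝ := fun k => ∫ y, y ^ k * (Q.eval y * weight τ t y) with hJ
  refine ⟨a / (2 * I R 0) * moment τ t 0, 1 + |a / (2 * I R 0)| * J 0, R + 1, by linarith,
    fun j => ?_⟩
  rw [mul_assoc, hL0]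
  have b1 : ∀ n : ℕ, |M (X ^ (2 * j)) - I n j / I R 0 * a|
      ≤ (R + 1) ^ (2 * j) + M (X ^ (2 * j + 2)) / (n + 1) := by
    intro n
    have c1 : Tendsto (fun N => S (φ N) (g n j)) atTop (𝓝 (I n j / I R 0 * a)) := by
      have := ((hS n j).comp hφ.tendsto_atTop).add (hlim.const_mul (I n j / I R 0))
      rw [zero_add] at this
      exact this.congr fun N => by simp
    refine le_of_tendsto (c1.const_sub (M (X ^ (2 * j)))).abs ?_
    filter_upwards [hφ.tendsto_atTop.eventually (eventually_ge_atTop (2 * j + 2))] with N hN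
    have c2 : (R + 1 : ℝ) ^ (2 * j) = ∑ i, w (φ N) i * (R + 1 : ℝ) ^ (2 * j) := by
      rw [← Finset.sum_mul, hw1, one_mul]
    rw [← (q (φ N)).pow _ (show 2 * j ≤ φ N by omega), ← (q (φ N)).pow _ hN, c2, Finset.sum_div,
      ← Finset.sum_add_distrib]
    simp only [S]
    rw [← Finset.sum_sub_distrib]
    refine (Finset.abs_sum_le_sum_abs _ _).trans (Finset.sum_le_sum fun i _ => ?_)
    rw [← mul_sub, abs_mul, abs_of_nonneg ((q (φ N)).nonneg i), mul_div_assoc, ← mul_add]
    exact mul_le_mul_of_nonneg_left (hpt n j _) ((q (φ N)).nonneg i)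
  have b2 : ∀ n : ℕ, |J (2 * j) - 2 * I n j|
      ≤ (R + 1) ^ (2 * j) * J 0 + J (2 * j + 2) / (n + 1) := by
    intro n
    have c1 : (fun y => g n j (-y) * (Q.eval y * weight τ t y))
        = fun y => g n j (-y) * (Q.eval (-y) * weight τ t (-y)) := by
      funext y; rw [hQe, weight_neg]
    have c2 : Integrable fun y => g n j (-y) * (Q.eval y * weight τ t y) := by
      rw [c1]; exact (hint n j).comp_neg
    have c3 : ∫ y, g n j (-y) * (Q.eval y * weight τ t y) = I n j := by
      rw [c1]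
      exact integral_neg_eq_self (fun y => g n j y * (Q.eval y * weight τ t y)) volume
    have c4 : J (2 * j) - 2 * I n j = ∫ y, (y ^ (2 * j) - (g n j y + g n j (-y)))
        * (Q.eval y * weight τ t y) := by
      simp only [sub_mul, add_mul]
      have c6 : Integrable fun y => g n j y * (Q.eval y * weight τ t y)
          + g n j (-y) * (Q.eval y * weight τ t y) := (hint n j).add c2
      rw [integral_sub (hpi _) c6, integral_add (hint n j) c2, c3]
      change J (2 * j) - 2 * I n j = J (2 * j) - (I n j + I n j)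
      ring
    have c5 : (R + 1) ^ (2 * j) * J 0 + J (2 * j + 2) / (n + 1) = ∫ y, ((R + 1 : ℝ) ^ (2 * j)
        * (y ^ 0 * (Q.eval y * weight τ t y))
        + y ^ (2 * j + 2) * (Q.eval y * weight τ t y) / (n + 1)) := by
      rw [integral_add ((hpi 0).const_mul _) ((hpi _).div_const _), integral_const_mul,
        integral_div]
    rw [c4, c5, ← Real.norm_eq_abs]
    refine norm_integral_le_of_norm_le (((hpi 0).const_mul _).add ((hpi _).div_const _))
      (Eventually.of_forall fun y => ?_)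
    rw [Real.norm_eq_abs, abs_mul, abs_of_nonneg (hQw y)]
    refine (mul_le_mul_of_nonneg_right (hpt n j y) (hQw y)).trans (le_of_eq ?_)
    ring
  have b3 : ∀ n : ℕ, |M (X ^ (2 * j)) - a / (2 * I R 0) * J (2 * j)|
      ≤ (1 + |a / (2 * I R 0)| * J 0) * (R + 1) ^ (2 * j)
        + (M (X ^ (2 * j + 2)) + |a / (2 * I R 0)| * J (2 * j + 2)) * (1 / (n + 1)) := by
    intro n
    have e : M (X ^ (2 * j)) - a / (2 * I R 0) * J (2 * j) = (M (X ^ (2 * j)) - I n j / I R 0 * a)
        - a / (2 * I R 0) * (J (2 * j) - 2 * I n j) := by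
      field_simp; ring
    rw [e]
    refine (abs_sub _ _).trans ?_
    rw [abs_mul]
    have := mul_le_mul_of_nonneg_left (b2 n) (abs_nonneg (a / (2 * I R 0)))
    have h' := b1 n
    calc _ ≤ (R + 1) ^ (2 * j) + M (X ^ (2 * j + 2)) / (n + 1) + |a / (2 * I R 0)|
          * ((R + 1) ^ (2 * j) * J 0 + J (2 * j + 2) / (n + 1)) := add_le_add h' this
      _ = _ := by ring
  have hl := ((tendsto_one_div_add_atTop_nhds_zero_nat (𝕜 := ℝ)).const_mul
    (M (X ^ (2 * j + 2)) + |a / (2 * I R 0)| * J (2 * j + 2))).const_add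
    ((1 + |a / (2 * I R 0)| * J 0) * (R + 1) ^ (2 * j))
  rw [mul_zero, add_zero] at hl
  exact ge_of_tendsto' hl b3

end Pool.Agent.Lib.MP_d042fc_an.Osc
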