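import Pool.Agent.Lib.MP_d042fc_an.OscC

/-!
# Eventually positive solutions are positive; eventually negative ones do not exist
-/

namespace Pool.Agent.Lib.MP_d042fc_an.Osc

open Polynomial Filter Topology MeasureTheory

variable {L : ℝ[X] →ₗ[ℝ] ℝ} {b : ℕ → ℝ} {τ t : ℝ}

lemma ne_zero_of_eq (hE : ∀ n, 1 ≤ n → StringEq τ t b n) (n : ℕ) (hn : 1 ≤ n) : b n ≠ 0 := by
  intro h
  have h1 := hE n hn
  unfold StringEq at h1
  rw [h] at h1
  have h2 : (n : ℝ) = 0 := by rw [← h1]; ring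
  have : n = 0 := by exact_mod_cast h2
  omega

lemma odd_mul (hodd : ∀ k, Odd k → L (X ^ k) = 0) {Q : ℝ[X]} (hQ : Q.comp (-X) = Q) (k : ℕ)
    (hk : Odd k) : L (Q * X ^ k) = 0 := by
  have h := symm_comp hodd (Q * X ^ k)
  rw [mul_comp, hQ, pow_comp, X_comp, hk.neg_pow, mul_neg, map_neg] at h
  linarith

theorem pos_of_eventually (h0 : b 0 = 0) (hE : ∀ n, 1 ≤ n → StringEq τ t b n) {N0 : ℕ}
    (hN : ∀ n, N0 < n → 0 < b n) : ∀ n, 1 ≤ n → 0 < b n := by
  have hb := ne_zero_of_eq hE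
  obtain ⟨L, hL⟩ := exists_orth h0
  have hp := pear_zero hL hE
  have hodd : ∀ k, Odd k → L (X ^ k) = 0 := fun k hk => by
    simpa [AA, recPoly_zero] using hL.AA_odd k 0 0 (by simpa using hk)
  set s := hh b N0 with hsd
  have hs0 : s ≠ 0 := Finset.prod_ne_zero_iff.mpr fun i _ => hb _ (by omega)
  have hs : ∀ n, N0 ≤ n → 0 < s * hh b n := by
    intro n hn
    induction n, hn using Nat.le_induction with
    | base => exact mul_self_pos.mpr hs0
    | succ n hn ih => rw [hh_succ, ← mul_assoc]; exact mul_pos ih (hN _ (by omega))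
  obtain ⟨Q0, hQ00, hQ0p, hQ0s⟩ := exists_Q hL hb hs
  set Q := Q0 + Q0.comp (-X) with hQd
  have hQv : ∀ y, Q.eval y = Q0.eval y + Q0.eval (-y) := fun y => by simp [hQd, eval_comp]
  have hQp : ∀ y, 0 ≤ Q.eval y := fun y => by rw [hQv]; exact add_nonneg (hQ0p _) (hQ0p _)
  have hQe : ∀ y, Q.eval (-y) = Q.eval y := fun y => by rw [hQv, hQv, neg_neg, add_comm]
  have hQc : Q.comp (-X) = Q := by rw [hQd, add_comp, comp_neg_X_comp_neg_X, add_comm]
  have hQ0 : Q ≠ 0 := by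
    intro h
    refine hQ00 (Polynomial.funext fun y => ?_)
    have h1 := hQv y
    rw [h, eval_zero] at h1
    rw [eval_zero]
    linarith [hQ0p y, hQ0p (-y)]
  have hQs : ∀ p, 0 ≤ s * L (Q * (p * p)) := by
    intro p
    have h1 := symm_comp hodd (Q0 * (p.comp (-X) * p.comp (-X)))
    rw [mul_comp, mul_comp, comp_neg_X_comp_neg_X] at h1
    rw [hQd, add_mul, map_add, h1, mul_add]
    exact add_nonneg (hQ0s _) (hQ0s _)
  have hodd0 : ∀ k, Odd k → L0 τ t (X ^ k) = 0 := fun k hk => by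
    rw [L0_X_pow, moment_odd τ t hk, zero_div]
  have hP : ∀ p, L (derivative p) = L (dV τ t * p) := fun p => by
    have := LinearMap.congr_fun hp p
    rw [pear_apply, LinearMap.zero_apply] at this
    linarith
  have hP0 : ∀ p, L0 τ t (derivative p) = L0 τ t (dV τ t * p) := fun p => by
    have := LinearMap.congr_fun (pear_L0 τ t) p
    rw [pear_apply, LinearMap.zero_apply] at this
    linarith
  have comb : ∀ u v : ℝ, pear τ t (u • L + v • L0 τ t) = 0 := fun u v =>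
    LinearMap.ext fun p => by
      rw [pear_apply]
      simp only [LinearMap.add_apply, LinearMap.smul_apply, LinearMap.zero_apply, hP, hP0, sub_self]
  have hm0 : ∀ p : ℝ[X], p ≠ 0 → 0 < s * L (Q * (p * p)) + L0 τ t (Q * (p * p)) := by
    intro p hp0
    refine add_pos_of_nonneg_of_pos (hQs p) (L0_pos (mul_ne_zero hQ0 (mul_ne_zero hp0 hp0))
      fun y => ?_)
    rw [eval_mul, eval_mul]
    exact mul_nonneg (hQp y) (mul_self_nonneg _)
  set m := s * L Q + L0 τ t Q with hmd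
  have hm : 0 < m := by simpa using hm0 1 one_ne_zero
  set L' := (m⁻¹ * s) • L + m⁻¹ • L0 τ t with hL'
  have hL'v : ∀ p, L' p = m⁻¹ * (s * L p + L0 τ t p) := fun p => by
    simp only [hL', LinearMap.add_apply, LinearMap.smul_apply, smul_eq_mul]; ring
  have hp' : pear τ t L' = 0 := comb _ _
  have hodd' : ∀ k, Odd k → L' (X ^ k) = 0 := fun k hk => by
    rw [hL'v, hodd k hk, hodd0 k hk]; simp
  set M := L' ∘ₗ LinearMap.mulLeft ℝ Q with hM
  have hMv : ∀ p, M p = L' (Q * p) := fun p => rfl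
  have hM1 : M 1 = 1 := by rw [hMv, mul_one, hL'v, inv_mul_cancel₀ hm.ne']
  have hMo : ∀ k, Odd k → M (X ^ k) = 0 := fun k hk => odd_mul hodd' hQc k hk
  have hMp : ∀ p : ℝ[X], p ≠ 0 → 0 < M (p * p) := fun p hp0 => by
    rw [hMv, hL'v]; exact mul_pos (inv_pos.mpr hm) (hm0 p hp0)
  have hMO : Orth M (gsCoeff M) := ⟨rfl, hM1, fun n hn => by
    simpa using gs_van hMo hMp n 0 hn⟩
  have hMc : ∀ n, 1 ≤ n → 0 < gsCoeff M n := by
    intro n hn
    obtain ⟨n, rfl⟩ : ∃ m, n = m + 1 := ⟨n - 1, by omega⟩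
    rw [gsCoeff_succ]
    exact div_pos (hMp _ (recPoly_monic _ _).ne_zero) (hMp _ (recPoly_monic _ _).ne_zero)
  choose w x hw hx using hMO.quadrature hMc
  have q : ∀ N, Quad M N (w N) (x N) := fun N => ⟨hw N, hx N⟩
  have q' : ∀ N, Quad M N (w N) (fun j => -x N j) := fun N => ⟨hw N, fun p hpd => by
    rw [← symm_comp hMo p, ← hx N (p.comp (-X)) (by rwa [natDegree_comp, natDegree_neg,
      natDegree_X, mul_one])]
    simp [eval_comp]⟩
  set B := 2 * derivative Q - dV τ t * Q with hB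
  set r := Q * Q + (B * X) * (B * X) + 2 with hr
  have D : Data M Q B r (Q.natDegree + B.natDegree + r.natDegree) := by
    refine ⟨fun p => ?_, by omega, by omega, by omega, fun y => ?_, ?_⟩
    · have := LinearMap.congr_fun hp' (Q * Q * p)
      rw [pear_apply, LinearMap.zero_apply, ← map_sub] at this
      rw [hMv, ← this]
      congr 1
      simp only [hB, derivative_mul]; ring
    · have e : r.eval y = |Q.eval y| ^ 2 + (|B.eval y| * |y|) ^ 2 + 2 := by
        simp only [hr, eval_add, eval_mul, eval_X, eval_ofNat, mul_pow, sq_abs]; ring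
      rw [e]
      nlinarith [sq_nonneg (|Q.eval y| - 1), sq_nonneg (|B.eval y| * |y| - 1),
        sq_nonneg (|Q.eval y|), sq_nonneg (|B.eval y| * |y|)]
    · obtain ⟨a, g, ha, h⟩ := mom_poly hp' hodd' (Q * r)
      exact ⟨a, g, ha, fun j => by rw [hMv, mul_left_comm]; exact h j⟩
  obtain ⟨c, C, ρ, hρ, hout⟩ := outer q q' D hM1 hQ0 hQp hQe
  have hC : 0 ≤ C := by simpa using (abs_nonneg _).trans (hout 0)
  set E := (m⁻¹ * s) • L + (m⁻¹ - c) • L0 τ t with hEd
  have hEv : ∀ p, E p = L' p - c * L0 τ t p := fun p => by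
    simp only [hEd, hL', LinearMap.add_apply, LinearMap.smul_apply, smul_eq_mul]; ring
  have hg : ∀ k, |E (Q * X ^ k)| ≤ C * ρ ^ k := by
    intro k
    rw [hEv]
    obtain ⟨j, rfl | rfl⟩ := Nat.even_or_odd' k
    · exact hout j
    · rw [odd_mul hodd' hQc _ ⟨j, rfl⟩, odd_mul hodd0 hQc _ ⟨j, rfl⟩]
      simp only [mul_zero, sub_zero, abs_zero]
      positivity
  obtain ⟨C', σ, hC', hσ, hgr⟩ := geom_growth hQ0 hρ hg
  have hE0 : E = 0 := geom_zero (comb _ _) hC' hσ hgr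
  have hLL : ∀ p, L p = L0 τ t p := by
    intro p
    have e1 := LinearMap.congr_fun hE0 1
    have e2 := LinearMap.congr_fun hE0 p
    simp only [hEd, LinearMap.add_apply, LinearMap.smul_apply, smul_eq_mul, LinearMap.zero_apply,
      hL.one, L0_one, mul_one] at e1 e2
    have e3 : m⁻¹ - c = -(m⁻¹ * s) := by linarith
    rw [e3] at e2
    have e4 : m⁻¹ * s * (L p - L0 τ t p) = 0 := by linarith
    exact sub_eq_zero.mp ((mul_eq_zero.mp e4).resolve_left (mul_ne_zero (inv_ne_zero hm.ne') hs0))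
  have hh0 : ∀ n, 0 < hh b n := by
    intro n
    have := hL.AA_zero n n
    rw [if_pos rfl, AA, pow_zero, one_mul, hLL] at this
    rw [← this]
    exact L0_sq_pos τ t (recPoly_monic _ _).ne_zero
  intro n hn
  obtain ⟨n, rfl⟩ : ∃ m, n = m + 1 := ⟨n - 1, by omega⟩
  have := hh0 (n + 1)
  rw [hh_succ] at this
  exact (mul_pos_iff_of_pos_left (hh0 n)).mp this

theorem not_eventually_neg (hE : ∀ n, 1 ≤ n → StringEq τ t b n) {N0 : ℕ}
    (hN : ∀ n, N0 < n → b n < 0) : False := by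
  have hτ := abs_nonneg τ
  have ht := abs_nonneg t
  set K := |τ| + |t| + 1 with hK
  obtain ⟨k, hk⟩ := exists_nat_gt (K * (4 * |τ| * K + 2 * |t|))
  have h := hE (k + N0 + 3) (by omega)
  unfold StringEq at h
  rw [if_pos (by omega)] at h
  have h1 := hN (k + N0 + 3 - 2) (by omega)
  have h2 := hN (k + N0 + 3 - 1) (by omega)
  have h3 := hN (k + N0 + 3) (by omega)
  have h4 := hN (k + N0 + 3 + 1) (by omega)
  have h5 := hN (k + N0 + 3 + 2) (by omega)
  have hn : (k : ℝ) ≤ ((k + N0 + 3 : ℕ) : ℝ) := by exact_mod_cast (by omega)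
  generalize b (k + N0 + 3 - 2) = u1 at *
  generalize b (k + N0 + 3 - 1) = u2 at *
  generalize b (k + N0 + 3 + 1) = u4 at *
  generalize b (k + N0 + 3 + 2) = u5 at *
  generalize b (k + N0 + 3) = u3 at *
  generalize ((k + N0 + 3 : ℕ) : ℝ) = n at *
  set S := -(u2 + u3 + u4) with hS
  have hS0 : 0 < S := by linarith
  have a1 : 3 / 4 * S ^ 2 ≤ u1 * u2 + u2 ^ 2 + 2 * u2 * u3 + u2 * u4 + u3 ^ 2 + 2 * u3 * u4
      + u4 ^ 2 + u4 * u5 := by
    rw [hS]
    nlinarith [mul_pos_of_neg_of_neg h1 h2, mul_pos_of_neg_of_neg h4 h5,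
      mul_pos_of_neg_of_neg h2 h3, mul_pos_of_neg_of_neg h3 h4, sq_nonneg (u2 - u4), sq_nonneg u3]
  have a2 : -τ * S ≤ |τ| * S := mul_le_mul_of_nonneg_right (neg_le_abs τ) hS0.le
  have a3 : n ≤ -u3 * (-(9 / 2) * S ^ 2 + 4 * |τ| * S + 2 * |t|) := by
    have e : n = -u3 * (-6 * (u1 * u2 + u2 ^ 2 + 2 * u2 * u3 + u2 * u4 + u3 ^ 2 + 2 * u3 * u4
      + u4 ^ 2 + u4 * u5) + 4 * (-τ * S) + 2 * t) := by rw [← h, hS]; ring
    rw [e]
    exact mul_le_mul_of_nonneg_left (by linarith [le_abs_self t]) (by linarith)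
  have hK1 : 1 ≤ K := by linarith
  have a4 : 0 ≤ K * (4 * |τ| * K + 2 * |t|) := by positivity
  rcases le_total S K with hSK | hSK
  · have b1 : -(9 / 2) * S ^ 2 + 4 * |τ| * S + 2 * |t| ≤ 4 * |τ| * K + 2 * |t| := by
      nlinarith [mul_le_mul_of_nonneg_left hSK hτ, sq_nonneg S]
    have b2 : -u3 * (4 * |τ| * K + 2 * |t|) ≤ K * (4 * |τ| * K + 2 * |t|) :=
      mul_le_mul_of_nonneg_right (by linarith) (by positivity)
    have b3 := mul_le_mul_of_nonneg_left b1 (show 0 ≤ -u3 by linarith)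
    linarith
  · have b1 : -(9 / 2) * S ^ 2 + 4 * |τ| * S + 2 * |t| ≤ 0 := by
      have c1 := mul_le_mul_of_nonneg_left hSK hS0.le
      have c2 : |t| ≤ S * |t| := le_mul_of_one_le_left ht (by linarith)
      rw [hK] at c1
      nlinarith [mul_nonneg hτ hS0.le]
    have b3 := mul_le_mul_of_nonneg_left b1 (show 0 ≤ -u3 by linarith)
    linarith

theorem oscillates (h0 : b 0 = 0) (hE : ∀ n, 1 ≤ n → StringEq τ t b n)
    (hneg : ∃ n, 1 ≤ n ∧ b n ≤ 0) (N : ℕ) : ∃ n, N ≤ n ∧ b n * b (n + 1) < 0 := by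
  by_contra hc
  push Not at hc
  have hb := ne_zero_of_eq hE
  have hpp : ∀ n, N < n → 0 < b n * b (n + 1) := fun n hn =>
    lt_of_le_of_ne (hc n hn.le) (mul_ne_zero (hb _ (by omega)) (hb _ (by omega))).symm
  rcases lt_or_gt_of_ne (hb (N + 1) (by omega)) with h | h
  · refine not_eventually_neg hE (N0 := N) fun n hn => ?_
    induction n, hn using Nat.le_induction with
    | base => exact h
    | succ n hn ih => exact (neg_of_mul_pos_right (hpp n hn) ih.le)
  · obtain ⟨n, hn, hn'⟩ := hneg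
    refine absurd (pos_of_eventually h0 hE (N0 := N) (fun n hn => ?_) n hn) (not_lt.mpr hn')
    induction n, hn using Nat.le_induction with
    | base => exact h
    | succ n hn ih => exact (mul_pos_iff_of_pos_left ih).mp (hpp n hn)

end Pool.Agent.Lib.MP_d042fc_an.Osc
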