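import Pool.Agent.Lib.MP_d042fc_an.Algebra

/-!
# Gaussian quadrature for the Favard functional
-/

namespace Pool.Agent.Lib.MP_d042fc_an

open Polynomial Matrix

lemma sym_pow_entry {n : Type*} [Fintype n] [DecidableEq n] (A : Matrix n n ℝ)
    (hA : A.IsHermitian) (i : n) :
    ∃ w x : n → ℝ, (∀ j, 0 ≤ w j) ∧ ∀ k : ℕ, (A ^ k) i i = ∑ j, w j * x j ^ k := by
  refine ⟨fun j => (hA.eigenvectorUnitary : Matrix n n ℝ) i j ^ 2, hA.eigenvalues,
    fun j => sq_nonneg _, fun k => ?_⟩
  conv_lhs => rw [hA.spectral_theorem, ← map_pow, diagonal_pow, Unitary.conjStarAlgAut_apply]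
  rw [Matrix.mul_apply]
  refine Finset.sum_congr rfl fun j _ => ?_
  rw [mul_diagonal]
  simp [star_apply]
  ring

variable {L : ℝ[X] →ₗ[ℝ] ℝ} {b : ℕ → ℝ}

lemma AA_symm (k i j : ℕ) : AA L b k i j = AA L b k j i := by
  unfold AA; congr 1; ring

lemma Orth.sum_AA_one (h : Orth L b) (hb : ∀ n, 1 ≤ n → 0 < b n) (N k i : ℕ) (hk : k < N)
    (hi : i < N) :
    ∑ j ∈ Finset.range N, AA L b 1 i j * (L (X ^ k * recPoly b j) / hh b j)
      = L (X ^ (k + 1) * recPoly b i) := by
  have e : ∀ j, AA L b 1 i j * (L (X ^ k * recPoly b j) / hh b j) =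
      (if i + 1 = j then L (X ^ k * recPoly b j) else 0) +
        b i * (if i - 1 = j then L (X ^ k * recPoly b j) else 0) := by
    intro j
    have := (hh_pos hb j).ne'
    rw [AA_succ h.b0, h.AA_zero, h.AA_zero]
    split_ifs <;> field_simp <;> ring
  simp only [e, Finset.sum_add_distrib, ← Finset.mul_sum, Finset.sum_ite_eq, Finset.mem_range]
  rw [pow_succ', L_X_step h.b0, if_pos (show i - 1 < N by omega)]
  congr 1
  split_ifs with h1
  · rfl
  · exact (h.X_pow_lt k (i + 1) (by omega)).symm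

lemma Orth.quadrature_pow (h : Orth L b) (hb : ∀ n, 1 ≤ n → 0 < b n) (N : ℕ) :
    ∃ w x : Fin (N + 1) → ℝ, (∀ j, 0 ≤ w j) ∧ ∀ k ≤ N, ∑ j, w j * x j ^ k = L (X ^ k) := by
  let s : ℕ → ℝ := fun i => Real.sqrt (hh b i)
  have hs : ∀ i, 0 < s i := fun i => Real.sqrt_pos.mpr (hh_pos hb i)
  have hss : ∀ i, s i * s i = hh b i := fun i => Real.mul_self_sqrt (hh_pos hb i).le
  let J : Matrix (Fin (N + 1)) (Fin (N + 1)) ℝ := Matrix.of fun i j => AA L b 1 i j / (s i * s j)
  have hJ : J.IsHermitian := by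
    ext i j
    simp only [conjTranspose_apply, star_trivial, J, of_apply]
    rw [AA_symm, mul_comm]
  obtain ⟨w, x, hw, hx⟩ := sym_pow_entry J hJ 0
  refine ⟨w, x, hw, fun k hk => ?_⟩
  have key : ∀ k ≤ N, ∀ i : Fin (N + 1), (J ^ k) i 0 = L (X ^ k * recPoly b i) / s i := by
    intro k
    induction k with
    | zero =>
      intro _ i
      rw [pow_zero, pow_zero, one_mul, one_apply]
      split_ifs with hi
      · subst hi
        simp [recPoly_zero, h.one, s, hh_zero]
      · rw [h.van i (by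
          have : (i : ℕ) ≠ 0 := fun h0 => hi (Fin.ext h0)
          omega)]
        simp
    | succ k ih =>
      intro hk i
      rw [pow_succ', Matrix.mul_apply, ← h.sum_AA_one hb (N + 1) k i (by omega) i.2,
        Finset.sum_div, ← Fin.sum_univ_eq_sum_range
          (fun j => AA L b 1 i j * (L (X ^ k * recPoly b j) / hh b j) / s i)]
      refine Finset.sum_congr rfl fun j _ => ?_
      rw [ih (by omega) j, ← hss j]
      have h1 := (hs i).ne'
      have h2 := (hs j).ne'
      simp only [J, of_apply]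
      field_simp
  rw [← hx k, key k hk 0]
  simp [recPoly_zero, s, hh_zero]

lemma Orth.quadrature (h : Orth L b) (hb : ∀ n, 1 ≤ n → 0 < b n) (N : ℕ) :
    ∃ w x : Fin (N + 1) → ℝ, (∀ j, 0 ≤ w j) ∧
      ∀ p : ℝ[X], p.natDegree ≤ N → ∑ j, w j * p.eval (x j) = L p := by
  obtain ⟨w, x, hw, hx⟩ := h.quadrature_pow hb N
  refine ⟨w, x, hw, fun p hp => ?_⟩
  conv_rhs => rw [p.as_sum_range_C_mul_X_pow' (n := N + 1) (by omega)]
  rw [map_sum]
  simp only [L_C_mul]
  have : ∀ j, w j * p.eval (x j) = ∑ k ∈ Finset.range (N + 1), p.coeff k * (w j * x j ^ k) := by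
    intro j
    rw [eval_eq_sum_range' (n := N + 1) (by omega), Finset.mul_sum]
    refine Finset.sum_congr rfl fun k _ => by ring
  simp only [this]
  rw [Finset.sum_comm]
  refine Finset.sum_congr rfl fun k hk => ?_
  rw [← Finset.mul_sum, hx k (by have := Finset.mem_range.mp hk; omega)]

end Pool.Agent.Lib.MP_d042fc_an
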