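import Pool.Agent.Lib.MP_d042fc_an.Fourier

/-!
# The weight: integrability, Pearson equation, existence of the orthogonal polynomials
-/

namespace Pool.Agent.Lib.MP_d042fc_an

open Polynomial Filter Topology MeasureTheory

lemma weight_pos (τ t x : ℝ) : 0 < weight τ t x := Real.exp_pos _

lemma continuous_weight (τ t : ℝ) : Continuous (weight τ t) := by
  unfold weight; fun_prop

lemma contDiff_weight (τ t : ℝ) {n : WithTop ℕ∞} : ContDiff ℝ n (weight τ t) := by
  unfold weight; fun_prop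

lemma hasDerivAt_weight (τ t x : ℝ) :
    HasDerivAt (weight τ t) (-dv τ t x * weight τ t x) x := by
  have h : HasDerivAt (fun x : ℝ => -x ^ 6 + τ * x ^ 4 + t * x ^ 2) (-dv τ t x) x := by
    have := (((hasDerivAt_pow 6 x).neg.add ((hasDerivAt_pow 4 x).const_mul τ)).add
      ((hasDerivAt_pow 2 x).const_mul t))
    refine this.congr_deriv ?_
    unfold dv; push_cast; ring
  refine h.exp.congr_deriv ?_
  unfold weight; ring

lemma weight_neg (τ t x : ℝ) : weight τ t (-x) = weight τ t x := by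
  unfold weight; congr 1; ring

lemma weight_le (τ t : ℝ) : ∃ C : ℝ, ∀ x, weight τ t x ≤ C * Real.exp (-1 * x ^ 2) := by
  set R : ℝ := |τ| + |t| + 2 with hR
  have hτ := abs_nonneg τ
  have ht := abs_nonneg t
  refine ⟨Real.exp (|τ| * R ^ 2 + (|t| + 1) * R), fun x => ?_⟩
  rw [← Real.exp_add]
  refine Real.exp_le_exp.mpr ?_
  set y := x ^ 2 with hy
  have hy0 : 0 ≤ y := by positivity
  have e6 : x ^ 6 = y ^ 3 := by rw [hy]; ring
  have e4 : x ^ 4 = y ^ 2 := by rw [hy]; ring
  rw [e6, e4]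
  have h1 : τ * y ^ 2 ≤ |τ| * y ^ 2 := by gcongr; exact le_abs_self _
  have h2 : t * y ≤ |t| * y := by gcongr; exact le_abs_self _
  have hC : 0 ≤ |τ| * R ^ 2 + (|t| + 1) * R := by positivity
  rcases le_total y R with h | h
  · have : |τ| * y ^ 2 ≤ |τ| * R ^ 2 := by gcongr
    have : (|t| + 1) * y ≤ (|t| + 1) * R := by gcongr
    have : 0 ≤ y ^ 3 := by positivity
    linarith
  · have h3 : R * y ^ 2 ≤ y ^ 3 := by
      calc R * y ^ 2 ≤ y * y ^ 2 := by gcongr
        _ = _ := by ring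
    have h4 : y ≤ y ^ 2 := by nlinarith
    have h5 : (|t| + 1) * y ≤ (|t| + 1) * y ^ 2 := by gcongr
    have : 0 ≤ y ^ 2 := by positivity
    rw [hR] at h3
    nlinarith

lemma integrable_pow_mul_weight (τ t : ℝ) (k : ℕ) :
    Integrable fun x : ℝ => x ^ k * weight τ t x := by
  obtain ⟨C, hC⟩ := weight_le τ t
  have h1 : Integrable fun x : ℝ => x ^ k * Real.exp (-1 * x ^ 2) := by
    have := integrable_rpow_mul_exp_neg_mul_sq (b := 1) one_pos (s := k)
      (by have : (0 : ℝ) ≤ k := Nat.cast_nonneg k; linarith)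
    simpa only [Real.rpow_natCast] using this
  refine (h1.norm.const_mul C).mono' ?_ (Eventually.of_forall fun x => ?_)
  · exact ((continuous_pow k).mul (continuous_weight τ t)).aestronglyMeasurable
  · rw [norm_mul, norm_mul, Real.norm_of_nonneg (weight_pos τ t x).le,
      Real.norm_of_nonneg (Real.exp_pos _).le]
    calc _ ≤ ‖x ^ k‖ * (C * Real.exp (-1 * x ^ 2)) := by gcongr; exact hC x
      _ = _ := by ring

lemma integrable_eval_mul_weight (τ t : ℝ) (p : ℝ[X]) :
    Integrable fun x : ℝ => p.eval x * weight τ t x := by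
  induction p using Polynomial.induction_on' with
  | add p q hp hq => simpa [add_mul] using! hp.add hq
  | monomial n a => simpa [mul_assoc] using (integrable_pow_mul_weight τ t n).const_mul a

lemma moment_zero_pos (τ t : ℝ) : 0 < moment τ t 0 := by
  unfold moment
  refine integral_pos_of_integrable_nonneg_nonzero (x := 0) ?_ (integrable_pow_mul_weight τ t 0)
    (fun x => ?_) ?_
  · exact (continuous_pow 0).mul (continuous_weight τ t)
  · simpa using (weight_pos τ t x).le
  · simpa using (weight_pos τ t 0).ne'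

/-- the normalised moment functional of the weight -/
noncomputable def L0 (τ t : ℝ) : ℝ[X] →ₗ[ℝ] ℝ where
  toFun p := (∫ x : ℝ, p.eval x * weight τ t x) / moment τ t 0
  map_add' p q := by
    simp only [eval_add, add_mul]
    rw [integral_add (integrable_eval_mul_weight τ t p) (integrable_eval_mul_weight τ t q), add_div]
  map_smul' c p := by
    simp only [eval_smul, smul_eq_mul, mul_assoc, RingHom.id_apply]
    rw [integral_const_mul, mul_div_assoc]

lemma L0_apply (τ t : ℝ) (p : ℝ[X]) :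
    L0 τ t p = (∫ x : ℝ, p.eval x * weight τ t x) / moment τ t 0 := rfl

lemma L0_X_pow (τ t : ℝ) (k : ℕ) : L0 τ t (X ^ k) = moment τ t k / moment τ t 0 := by
  simp [L0_apply, moment]

lemma L0_one (τ t : ℝ) : L0 τ t 1 = 1 := by
  have := L0_X_pow τ t 0
  rwa [pow_zero, div_self (moment_zero_pos τ t).ne'] at this

lemma L0_sq_pos (τ t : ℝ) {p : ℝ[X]} (hp : p ≠ 0) : 0 < L0 τ t (p * p) := by
  rw [L0_apply]
  refine div_pos ?_ (moment_zero_pos τ t)
  obtain ⟨x, hx⟩ : ∃ x : ℝ, p.eval x ≠ 0 := by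
    by_contra h
    push Not at h
    exact hp (Polynomial.funext (by simpa using h))
  refine integral_pos_of_integrable_nonneg_nonzero (x := x) ?_ (integrable_eval_mul_weight τ t _)
    (fun x => ?_) ?_
  · exact (p * p).continuous.mul (continuous_weight τ t)
  · simp only [eval_mul, Pi.zero_apply]
    exact mul_nonneg (mul_self_nonneg _) (weight_pos τ t x).le
  · simp only [eval_mul]
    exact mul_ne_zero (mul_ne_zero hx hx) (weight_pos τ t x).ne'

lemma moment_odd (τ t : ℝ) {k : ℕ} (hk : Odd k) : moment τ t k = 0 := by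
  have h := integral_neg_eq_self (fun x : ℝ => x ^ k * weight τ t x) volume
  simp only [weight_neg, hk.neg_pow, neg_mul, integral_neg] at h
  unfold moment; linarith

lemma pear_L0 (τ t : ℝ) : pear τ t (L0 τ t) = 0 := by
  ext1 p
  refine LinearMap.ext fun a => ?_
  simp only [LinearMap.comp_apply, LinearMap.zero_apply]
  generalize (monomial p) a = q
  rw [pear_apply, ← map_sub, L0_apply, div_eq_zero_iff]
  left
  refine integral_eq_zero_of_hasDerivAt_of_integrable (f := fun x => q.eval x * weight τ t x)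
    (fun x => ?_) (integrable_eval_mul_weight τ t _) (integrable_eval_mul_weight τ t _)
  refine ((q.hasDerivAt x).mul (hasDerivAt_weight τ t x)).congr_deriv ?_
  simp only [eval_sub, eval_mul, eval_dV]; ring

/-- the monic orthogonal polynomials of a functional -/
noncomputable def gsPoly (L : ℝ[X] →ₗ[ℝ] ℝ) : ℕ → ℝ[X]
  | 0 => 1
  | 1 => X
  | n + 2 => X * gsPoly L (n + 1) -
      C (L (gsPoly L (n + 1) * gsPoly L (n + 1)) / L (gsPoly L n * gsPoly L n)) * gsPoly L n

/-- their recurrence coefficients -/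
noncomputable def gsCoeff (L : ℝ[X] →ₗ[ℝ] ℝ) : ℕ → ℝ
  | 0 => 0
  | n + 1 => L (gsPoly L (n + 1) * gsPoly L (n + 1)) / L (gsPoly L n * gsPoly L n)

lemma recPoly_gsCoeff (L : ℝ[X] →ₗ[ℝ] ℝ) (n : ℕ) : recPoly (gsCoeff L) n = gsPoly L n := by
  induction n using Nat.twoStepInduction with
  | zero => simp [recPoly_zero, gsPoly]
  | one => simp [recPoly_one, gsPoly]
  | more n h0 h1 => rw [recPoly_add_two, h0, h1]; simp [gsPoly, gsCoeff]

lemma gsCoeff_succ (L : ℝ[X] →ₗ[ℝ] ℝ) (n : ℕ) : gsCoeff L (n + 1) =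
    L (recPoly (gsCoeff L) (n + 1) * recPoly (gsCoeff L) (n + 1)) /
      L (recPoly (gsCoeff L) n * recPoly (gsCoeff L) n) := by
  simp [recPoly_gsCoeff, gsCoeff]

lemma parity {L : ℝ[X] →ₗ[ℝ] ℝ} (hodd : ∀ k, Odd k → L (X ^ k) = 0) (b : ℕ → ℝ) (n : ℕ) :
    ∀ k, Odd (k + n) → L (X ^ k * recPoly b n) = 0 := by
  induction n using Nat.twoStepInduction with
  | zero => intro k hk; simpa [recPoly_zero] using hodd k hk
  | one => intro k hk; simpa [recPoly_one, pow_succ] using hodd (k + 1) hk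
  | more n h0 h1 =>
    intro k hk
    have : X ^ k * recPoly b (n + 2) =
        X ^ (k + 1) * recPoly b (n + 1) - C (b (n + 1)) * (X ^ k * recPoly b n) := by
      rw [recPoly_add_two]; ring
    rw [this, map_sub, L_C_mul, h1 (k + 1) (by convert hk using 1; ring), h0 k, mul_zero, sub_zero]
    have e : k + (n + 2) = (k + n) + 2 := by ring
    rw [e] at hk
    exact (Nat.odd_add.mp hk).mpr even_two

lemma sq_eq_of_van {L : ℝ[X] →ₗ[ℝ] ℝ} {b : ℕ → ℝ} {n : ℕ}
    (h : ∀ k < n, L (X ^ k * recPoly b n) = 0) :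
    L (recPoly b n * recPoly b n) = L (X ^ n * recPoly b n) := by
  have hc := (recPoly_monic b n).coeff_natDegree
  rw [recPoly_natDegree] at hc
  conv_lhs =>
    enter [2, 1]
    rw [(recPoly b n).as_sum_range_C_mul_X_pow' (n := n + 1) (by rw [recPoly_natDegree]; omega)]
  rw [Finset.sum_mul, map_sum, Finset.sum_range_succ, Finset.sum_eq_zero, zero_add, mul_assoc,
    L_C_mul, hc, one_mul]
  intro i hi
  rw [mul_assoc, L_C_mul, h i (Finset.mem_range.mp hi), mul_zero]

lemma gs_van {L : ℝ[X] →ₗ[ℝ] ℝ} (hodd : ∀ k, Odd k → L (X ^ k) = 0)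
    (hpos : ∀ p : ℝ[X], p ≠ 0 → 0 < L (p * p)) (n : ℕ) :
    ∀ k < n, L (X ^ k * recPoly (gsCoeff L) n) = 0 := by
  induction n using Nat.twoStepInduction with
  | zero => intro k hk; omega
  | one =>
    intro k hk
    obtain rfl : k = 0 := by omega
    exact parity hodd _ 1 0 (by decide)
  | more n h0 h1 =>
    intro k hk
    rcases (show k < n ∨ k = n ∨ k = n + 1 by omega) with hkn | rfl | rfl
    · have : X ^ k * recPoly (gsCoeff L) (n + 2) = X ^ (k + 1) * recPoly (gsCoeff L) (n + 1)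
          - C (gsCoeff L (n + 1)) * (X ^ k * recPoly (gsCoeff L) n) := by
        rw [recPoly_add_two]; ring
      rw [this, map_sub, L_C_mul, h1 (k + 1) (by omega), h0 k hkn]; simp
    · have : X ^ k * recPoly (gsCoeff L) (k + 2) = X ^ (k + 1) * recPoly (gsCoeff L) (k + 1)
          - C (gsCoeff L (k + 1)) * (X ^ k * recPoly (gsCoeff L) k) := by
        rw [recPoly_add_two]; ring
      rw [this, map_sub, L_C_mul, ← sq_eq_of_van h0, ← sq_eq_of_van h1, gsCoeff_succ,
        div_mul_cancel₀ _ (hpos _ (recPoly_monic _ _).ne_zero).ne', sub_self]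
    · exact parity hodd _ _ _ (by use n + 1; ring)

lemma orth_L0 (τ t : ℝ) : Orth (L0 τ t) (gsCoeff (L0 τ t)) := by
  refine ⟨rfl, L0_one τ t, fun n hn => ?_⟩
  have := gs_van (L := L0 τ t) (fun k hk => by rw [L0_X_pow, moment_odd τ t hk, zero_div])
    (fun p hp => L0_sq_pos τ t hp) n 0 hn
  simpa using this

lemma gsCoeff_L0_pos (τ t : ℝ) (n : ℕ) (hn : 1 ≤ n) : 0 < gsCoeff (L0 τ t) n := by
  obtain ⟨n, rfl⟩ : ∃ m, n = m + 1 := ⟨n - 1, by omega⟩
  rw [gsCoeff_succ]
  exact div_pos (L0_sq_pos τ t (recPoly_monic _ _).ne_zero) (L0_sq_pos τ t (recPoly_monic _ _).ne_zero)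

lemma isPositiveSolution_gsCoeff (τ t : ℝ) : IsPositiveSolution τ t (gsCoeff (L0 τ t)) := by
  refine ⟨rfl, gsCoeff_L0_pos τ t, fun n hn => ?_⟩
  obtain ⟨n, rfl⟩ : ∃ m, n = m + 1 := ⟨n - 1, by omega⟩
  rw [(orth_L0 τ t).stringEq_iff (gsCoeff_L0_pos τ t), pear_L0]; rfl

lemma isRecurrenceCoeff_gsCoeff (τ t : ℝ) : IsRecurrenceCoeff τ t (gsCoeff (L0 τ t)) := by
  refine ⟨rfl, fun m n hmn => ?_⟩
  have := (orth_L0 τ t).AA_zero n m
  rw [if_neg hmn.symm, AA, pow_zero, one_mul, L0_apply, div_eq_zero_iff,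
    or_iff_left (moment_zero_pos τ t).ne'] at this
  simpa only [eval_mul] using this

end Pool.Agent.Lib.MP_d042fc_an
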